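import Mathlib

/-!
# The logarithmic barrier: calculus
-/

set_option autoImplicit false

open MeasureTheory Set Filter Topology
open scoped ContDiff

namespace Pool.Agent.Q65.AXI

/-- a power of the logarithm is controlled by a power -/
theorem log_pow_le (a c : ℝ) (ha : 0 < a) (hc : 0 ≤ c) (s : ℝ) (hs : 0 < s) (hs1 : s < 1) :
    s * (-Real.log s + c) ^ a ≤ (2 * a + c) ^ a * √s := by
  have h1 : -Real.log s ≤ 2 * a * (s⁻¹) ^ (1 / (2 * a)) := by
    rw [← Real.log_inv]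
    have := Real.log_le_rpow_div (inv_nonneg.2 hs.le) (show 0 < 1 / (2 * a) by positivity)
    refine this.trans (le_of_eq ?_)
    field_simp
  have hinv : 1 ≤ s⁻¹ := (one_le_inv₀ hs).2 hs1.le
  have h2 : 1 ≤ (s⁻¹) ^ (1 / (2 * a)) := Real.one_le_rpow hinv (by positivity)
  have hlog : 0 < -Real.log s := by
    have := Real.log_neg hs hs1
    linarith
  have h3 : -Real.log s + c ≤ (2 * a + c) * (s⁻¹) ^ (1 / (2 * a)) := by
    nlinarith
  have h4 : (-Real.log s + c) ^ a ≤ ((2 * a + c) * (s⁻¹) ^ (1 / (2 * a))) ^ a :=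
    Real.rpow_le_rpow (by linarith) h3 ha.le
  rw [Real.mul_rpow (by linarith) (by linarith), ← Real.rpow_mul (inv_nonneg.2 hs.le)] at h4
  have h5 : 1 / (2 * a) * a = 1 / 2 := by field_simp
  rw [h5, ← Real.sqrt_eq_rpow] at h4
  have h6 : s * √(s⁻¹) = √s := by
    rw [Real.sqrt_inv]
    have : √s ≠ 0 := (Real.sqrt_pos.2 hs).ne'
    field_simp
    exact (Real.sq_sqrt hs.le).symm
  calc s * (-Real.log s + c) ^ a ≤ s * ((2 * a + c) ^ a * √(s⁻¹)) := mul_le_mul_of_nonneg_left h4 hs.le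
    _ = (2 * a + c) ^ a * (s * √(s⁻¹)) := by ring
    _ = (2 * a + c) ^ a * √s := by rw [h6]

theorem le_log_rpow (a c : ℝ) (ha : 0 < a) (hc : 0 ≤ c) (s L : ℝ) (hs : 0 < s) (hs1 : s < 1)
    (hL : 0 < L) (hLc : L ≤ -Real.log s + c) : s ≤ (2 * a + c) ^ a * √s * L ^ (-a) := by
  have h1 := log_pow_le a c ha hc s hs hs1
  have h2 : L ^ a ≤ (-Real.log s + c) ^ a := Real.rpow_le_rpow hL.le hLc ha.le
  have h3 : s * L ^ a ≤ (2 * a + c) ^ a * √s := (mul_le_mul_of_nonneg_left h2 hs.le).trans h1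
  rw [Real.rpow_neg hL.le, ← div_eq_mul_inv, le_div_iff₀ (Real.rpow_pos_of_pos hL a)]
  exact h3

/-- the barrier -/
noncomputable def kap (δ C a : ℝ) (b : ℝ → ℝ) (t s : ℝ) : ℝ := δ + C * (-Real.log s + 2 * b t) ^ (-a)

noncomputable def kapS (C a : ℝ) (b : ℝ → ℝ) (t s : ℝ) : ℝ := C * a * ((-Real.log s + 2 * b t) ^ (-a - 1) / s)

noncomputable def kapSS (C a : ℝ) (b : ℝ → ℝ) (t s : ℝ) : ℝ :=
  C * a * ((a + 1) * (-Real.log s + 2 * b t) ^ (-a - 2) / s ^ 2 - (-Real.log s + 2 * b t) ^ (-a - 1) / s ^ 2)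

noncomputable def kapT (C a : ℝ) (b b' : ℝ → ℝ) (t s : ℝ) : ℝ :=
  -(2 * C * a * b' t * (-Real.log s + 2 * b t) ^ (-a - 1))

theorem kap_dt (δ C a : ℝ) (b b' : ℝ → ℝ) (t s : ℝ) (hL : 0 < -Real.log s + 2 * b t)
    (hb : HasDerivAt b (b' t) t) : HasDerivAt (fun τ => kap δ C a b τ s) (kapT C a b b' t s) t := by
  unfold kap kapT
  have h1 : HasDerivAt (fun τ => -Real.log s + 2 * b τ) (2 * b' t) t := by
    simpa using (hb.const_mul 2).const_add (-Real.log s)
  have h2 := (h1.rpow_const (p := -a) (Or.inl hL.ne')).const_mul C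
  have h3 := h2.const_add δ
  refine h3.congr_deriv ?_
  ring

theorem log_dt (b : ℝ → ℝ) (t s : ℝ) (hs : 0 < s) :
    HasDerivAt (fun σ => -Real.log σ + 2 * b t) (-s⁻¹) s :=
  ((Real.hasDerivAt_log hs.ne').neg).add_const _

theorem kap_ds (δ C a : ℝ) (b : ℝ → ℝ) (t s : ℝ) (hs : 0 < s) (hL : 0 < -Real.log s + 2 * b t) :
    HasDerivAt (kap δ C a b t) (kapS C a b t s) s := by
  unfold kap kapS
  have h2 := ((log_dt b t s hs).rpow_const (p := -a) (Or.inl hL.ne')).const_mul C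
  have h3 := h2.const_add δ
  refine h3.congr_deriv ?_
  field_simp

theorem kap_dss (C a : ℝ) (b : ℝ → ℝ) (t s : ℝ) (hs : 0 < s) (hL : 0 < -Real.log s + 2 * b t) :
    HasDerivAt (kapS C a b t) (kapSS C a b t s) s := by
  unfold kapS kapSS
  have h2 := (log_dt b t s hs).rpow_const (p := -a - 1) (Or.inl hL.ne')
  have h3 := (h2.div (hasDerivAt_id s) hs.ne').const_mul (C * a)
  refine h3.congr_deriv ?_
  have e : -a - 1 - 1 = -a - 2 := by ring
  rw [e]
  simp only [id]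
  field_simp
  ring

theorem kap_smooth (δ C a : ℝ) (b : ℝ → ℝ) (t r : ℝ) (hr : r < 1)
    (hb : 0 ≤ b t) : ContDiffOn ℝ 2 (kap δ C a b t) (Ioo 0 r) := by
  have hL : ∀ s ∈ Ioo 0 r, -Real.log s + 2 * b t ≠ 0 := by
    intro s hs
    have := Real.log_neg hs.1 (hs.2.trans hr)
    have : 0 < -Real.log s + 2 * b t := by linarith
    exact this.ne'
  unfold kap
  apply contDiffOn_const.add
  apply contDiffOn_const.mul
  apply ContDiffOn.rpow_const_of_ne _ hL
  apply ContDiffOn.add _ contDiffOn_const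
  apply ContDiffOn.neg
  intro s hs
  exact (Real.contDiffAt_log.2 hs.1.ne').contDiffWithinAt

theorem kap_cont (δ C a : ℝ) (b : ℝ → ℝ) (I : Set ℝ) (r : ℝ) (hr : r < 1)
    (hb : ContinuousOn b I) (hb0 : ∀ t ∈ I, 0 ≤ b t) :
    ContinuousOn (fun z : ℝ × ℝ => kap δ C a b z.1 z.2) (I ×ˢ Ioc 0 r) := by
  unfold kap
  apply continuousOn_const.add
  apply continuousOn_const.mul
  apply ContinuousOn.rpow_const
  · apply ContinuousOn.add
    · apply ContinuousOn.neg
      apply ContinuousOn.log continuousOn_snd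
      intro z hz
      exact hz.2.1.ne'
    · apply continuousOn_const.mul
      exact hb.comp continuousOn_fst (fun z hz => hz.1)
  · intro z hz
    left
    have h1 := Real.log_neg hz.2.1 (lt_of_le_of_lt hz.2.2 hr)
    have h2 := hb0 z.1 hz.1
    have : 0 < -Real.log z.2 + 2 * b z.1 := by linarith
    exact this.ne'

/-- the differential inequality -/
theorem kap_ineq (C a α : ℝ) (b b' : ℝ → ℝ) (t s B rd : ℝ) (hC : 0 < C) (ha : 0 < a) (haα : a < α)
    (hs : 0 < s) (hs1 : s < 1) (hb : 0 ≤ b t) (hb' : b' t = -|B|)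
    (hrd : -2 + 2 * (α + 1) / |Real.log s| - B * s ≤ rd) :
    0 < kapT C a b b' t s + 2 * rd * kapS C a b t s - 4 * s * kapSS C a b t s := by
  have hlog := Real.log_neg hs hs1
  have habs : |Real.log s| = -Real.log s := abs_of_neg hlog
  have hl0 : 0 < -Real.log s := by linarith
  rw [habs] at hrd
  unfold kapT kapS kapSS
  set L := -Real.log s + 2 * b t with hL
  have hL0 : 0 < L := by linarith
  have hLl : -Real.log s ≤ L := by linarith
  have hX : 0 < L ^ (-a - 2) := Real.rpow_pos_of_pos hL0 _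
  have e1 : L ^ (-a - 1) = L ^ (-a - 2) * L := by
    rw [← Real.rpow_add_one hL0.ne']
    congr 1
    ring
  rw [e1, hb']
  set X := L ^ (-a - 2) with hXd
  have e2 : -(2 * C * a * -|B| * (X * L)) + 2 * rd * (C * a * (X * L / s)) -
      4 * s * (C * a * ((a + 1) * X / s ^ 2 - X * L / s ^ 2)) =
      2 * C * a * X / s * ((|B| * s + rd + 2) * L - 2 * (a + 1)) := by
    field_simp
    ring
  rw [e2]
  apply mul_pos (by positivity)
  have h1 : 2 * (α + 1) / -Real.log s ≤ |B| * s + rd + 2 := by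
    have : B * s ≤ |B| * s := mul_le_mul_of_nonneg_right (le_abs_self B) hs.le
    linarith
  have h2 : 2 * (α + 1) ≤ 2 * (α + 1) / -Real.log s * L := by
    rw [div_mul_eq_mul_div, le_div_iff₀ hl0]
    apply mul_le_mul_of_nonneg_left hLl (by linarith)
  have h3 : 2 * (α + 1) / -Real.log s * L ≤ (|B| * s + rd + 2) * L := mul_le_mul_of_nonneg_right h1 hL0.le
  linarith

/-- the integral of the absolute value from `t` to `T` -/
noncomputable def tailI (B : ℝ → ℝ) (T t : ℝ) : ℝ := ∫ τ in t..T, |B τ|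

theorem tailI_ii (B : ℝ → ℝ) (T : ℝ) (hi : IntegrableOn B (Ioo 0 T)) (t t' : ℝ) (ht : 0 ≤ t) (ht' : t' ≤ T) (htt : t ≤ t') :
    IntervalIntegrable (fun τ => |B τ|) volume t t' := by
  rw [intervalIntegrable_iff_integrableOn_Ioo_of_le htt]
  exact (show IntegrableOn (fun τ => |B τ|) (Ioo 0 T) volume from hi.abs).mono_set (Ioo_subset_Ioo ht ht')

theorem tailI_nonneg (B : ℝ → ℝ) (T t : ℝ) (ht : t ≤ T) : 0 ≤ tailI B T t :=
  intervalIntegral.integral_nonneg ht (fun _ _ => abs_nonneg _)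

theorem tailI_anti (B : ℝ → ℝ) (T : ℝ) (hi : IntegrableOn B (Ioo 0 T)) (t t' : ℝ) (ht : 0 ≤ t) (htt : t ≤ t') (ht' : t' ≤ T) :
    tailI B T t' ≤ tailI B T t := by
  unfold tailI
  rw [← intervalIntegral.integral_add_adjacent_intervals (tailI_ii B T hi t t' ht ht' htt)
    (tailI_ii B T hi t' T (ht.trans htt) le_rfl ht')]
  have := intervalIntegral.integral_nonneg htt (fun τ _ => abs_nonneg (B τ)) (μ := volume)
  linarith

theorem tailI_deriv (B : ℝ → ℝ) (T : ℝ) (hi : IntegrableOn B (Ioo 0 T)) (hc : ContinuousOn B (Ioo 0 T)) (t : ℝ) (ht : t ∈ Ioo 0 T) :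
    HasDerivAt (tailI B T) (-|B t|) t := by
  unfold tailI
  have hcat : ContinuousAt (fun τ => |B τ|) t := (hc.continuousAt (Ioo_mem_nhds ht.1 ht.2)).abs
  apply intervalIntegral.integral_hasDerivAt_left (tailI_ii B T hi t T ht.1.le le_rfl ht.2.le) _ hcat
  exact ContinuousOn.stronglyMeasurableAtFilter isOpen_Ioo (hc.abs) t ht

end Pool.Agent.Q65.AXI
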