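import Pool.Agent.Q67.AXI.Defs2
import Pool.Agent.Q65.AXI.LogA

/-!
Projects AXI / AXW (helper67): the logarithmic bound of the circulation, jobs AXI-24 (StmLog) and
AXW-10 (StmLogC).
-/

set_option autoImplicit false

open MeasureTheory Set Metric Filter Topology
open scoped ContDiff
open H459R3.NS Pool.Agent.W268.NS Pool.Agent.Q67.VD

namespace Pool.Agent.Q65.AXI

open Pool.Agent.Q85.CC Pool.Agent.Q85.CL Pool.Agent.TH305.AX Pool.Agent.Q67.AXI

/-- as in `Pool.Agent.Q16.AXI.Cy_compact` -/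
theorem cyCompact (c r h : ℝ) : IsCompact (Cy c r h) := by
  have hcl : IsClosed (Cy c r h) := by
    have h1 : IsClosed {x : V | sg x ≤ r ^ 2} := by
      apply isClosed_le _ continuous_const
      unfold sg
      fun_prop
    have h2 : IsClosed {x : V | |x 2 - c| ≤ h} := by
      apply isClosed_le _ continuous_const
      fun_prop
    exact h1.inter h2
  apply Metric.isCompact_of_isClosed_isBounded hcl
  apply (Metric.isBounded_closedBall (x := (0 : V)) (r := |r| + (|c| + |h|))).subset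
  intro x hx
  rw [mem_closedBall_zero_iff, pi_norm_le_iff_of_nonneg (by positivity)]
  have hx1 : sg x ≤ r ^ 2 := hx.1
  have hx2 : |x 2 - c| ≤ h := hx.2
  have a0 : |x 0| ≤ |r| := by
    apply abs_le_of_sq_le_sq' _ (abs_nonneg r) |> fun h => abs_le.2 h
    rw [sq_abs]
    unfold sg at hx1
    nlinarith [sq_nonneg (x 1)]
  have a1 : |x 1| ≤ |r| := by
    apply abs_le_of_sq_le_sq' _ (abs_nonneg r) |> fun h => abs_le.2 h
    rw [sq_abs]
    unfold sg at hx1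
    nlinarith [sq_nonneg (x 0)]
  have a2 : |x 2| ≤ |c| + |h| := by
    have : |x 2| ≤ |x 2 - c| + |c| := by
      have := abs_add_le (x 2 - c) c
      simpa using this
    linarith [le_abs_self h]
  intro i
  rw [Real.norm_eq_abs]
  fin_cases i
  · show |x 0| ≤ _
    linarith [abs_nonneg c, abs_nonneg h]
  · show |x 1| ≤ _
    linarith [abs_nonneg c, abs_nonneg h]
  · show |x 2| ≤ _
    linarith [abs_nonneg r]

/-- as in `Pool.Agent.Q151.AXI.slice` -/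
theorem sliceU {T : ℝ} {u : ℝ → V → V}
    (h : ContDiffOn ℝ ∞ (fun z : ℝ × V => u z.1 z.2) (Ioo 0 T ×ˢ univ)) {t : ℝ}
    (ht : t ∈ Ioo 0 T) : ContDiff ℝ ∞ (u t) := by
  rw [contDiff_iff_contDiffAt]
  intro x
  have h1 : ContDiffAt ℝ ∞ (fun z : ℝ × V => u z.1 z.2) (t, x) :=
    h.contDiffAt (prod_mem_nhds (Ioo_mem_nhds ht.1 ht.2) univ_mem)
  exact h1.comp x (contDiffAt_const.prodMk contDiffAt_id)

/-- The general form: a bound of the circulation from a one-sided bound of the radial velocity where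
the circulation is larger than the threshold `θ`. -/
theorem logGen (hAlg : StmAlg) (hBar : StmBar) (T E c R H r h T₁ K : ℝ) (u : ℝ → V → V)
    (p : ℝ → V → ℝ) (B : ℝ → ℝ) (α α' δ C₂ : ℝ) (θ : ℝ → ℝ) (hA : AxL T E c R H u p) (hr : 0 < r)
    (hrR : r < R) (hr1 : r < 1) (hh : 0 < h) (hhH : h < H) (hT₁ : 0 < T₁) (hT₁T : T₁ < T)
    (hW : ∀ t ∈ Ico T₁ T, ∀ x ∈ Cy c r h, (sg x = r ^ 2 ∨ |x 2 - c| = h) → |WW (u t) x| ≤ K)
    (hBc : ContinuousOn B (Ioo 0 T)) (hBi : IntegrableOn B (Ioo 0 T)) (hα' : 0 < α') (hαα : α' < α)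
    (hδ : 0 ≤ δ) (hC₂ : 0 ≤ C₂)
    (hθ : ∀ s ∈ Ioo 0 (r ^ 2), θ s ≤ δ + C₂ * |Real.log s| ^ (-α'))
    (hcond : ∀ t ∈ Ioo T₁ T, ∀ x ∈ Co c r h, 0 < sg x →
      θ (sg x) < |circ (u t) x| → rad (vort (u t)) x = 0 → 0 < circ (u t) x * vort (u t) x 2 →
      -2 + 2 * (α + 1) / |Real.log (sg x)| - B t * sg x ≤ rad (u t) x) :
    ∃ C' : ℝ, 0 ≤ C' ∧ ∀ t ∈ Ico T₁ T, ∀ x ∈ Cy c r h, 0 < sg x →
      |circ (u t) x| ≤ δ + C' * |Real.log (sg x)| ^ (-α') := by
  have hr2 : r ^ 2 < 1 := pow_lt_one₀ hr.le hr1 (by norm_num)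
  have hr20 : 0 < r ^ 2 := by positivity
  have hlr : Real.log (r ^ 2) < 0 := Real.log_neg hr20 hr2
  have hT₁I : T₁ ∈ Ioo 0 T := ⟨hT₁, hT₁T⟩
  -- the initial bound
  have hsm1 := sliceU hA.smooth_u hT₁I
  have hWc : Continuous (WW (u T₁)) := ((hAlg (u T₁) hsm1 (hA.axi T₁ hT₁I)).1.2.1).continuous
  obtain ⟨K₁, hK₁⟩ : ∃ K₁ : ℝ, ∀ x ∈ Cy c r h, |WW (u T₁) x| ≤ K₁ := by
    obtain ⟨K₁, hK₁⟩ := (cyCompact c r h).exists_bound_of_continuousOn (f := WW (u T₁)) hWc.continuousOn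
    exact ⟨K₁, hK₁⟩
  set b := tailI B T with hb
  have hb0 : ∀ t ∈ Ico T₁ T, 0 ≤ b t := fun t ht => tailI_nonneg B T t ht.2.le
  have hbm : ∀ t ∈ Ico T₁ T, b t ≤ b T₁ := fun t ht => tailI_anti B T hBi T₁ t hT₁.le ht.1 ht.2.le
  have hbd : ∀ t ∈ Ioo 0 T, HasDerivAt b (-|B t|) t := fun t ht => tailI_deriv B T hBi hBc t ht
  have hbc : ContinuousOn b (Ico T₁ T) := fun t ht =>
    (hbd t ⟨hT₁.trans_le ht.1, ht.2⟩).continuousAt.continuousWithinAt
  have hbT₁ : 0 ≤ b T₁ := hb0 T₁ ⟨le_rfl, hT₁T⟩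
  set K₂ := (2 * α' + 2 * b T₁) ^ α' with hK₂
  have hK₂0 : 0 < K₂ := Real.rpow_pos_of_pos (by positivity) _
  set ℓ := -Real.log (r ^ 2) with hℓ
  have hℓ0 : 0 < ℓ := by linarith
  set C := |K| * K₂ + |K₁| * K₂ + C₂ * (1 + 2 * b T₁ / ℓ) ^ α' + 1 with hC
  have hC1 : |K| * K₂ ≤ C := by
    have : 0 ≤ |K₁| * K₂ := by positivity
    have : 0 ≤ C₂ * (1 + 2 * b T₁ / ℓ) ^ α' := by positivity
    linarith
  have hC2 : |K₁| * K₂ ≤ C := by
    have : 0 ≤ |K| * K₂ := by positivity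
    have : 0 ≤ C₂ * (1 + 2 * b T₁ / ℓ) ^ α' := by positivity
    linarith
  have hC3 : C₂ * (1 + 2 * b T₁ / ℓ) ^ α' ≤ C := by
    have : 0 ≤ |K₁| * K₂ := by positivity
    have : 0 ≤ |K| * K₂ := by positivity
    linarith
  have hC0 : 0 < C := by
    have : 0 ≤ |K₁| * K₂ := by positivity
    have : 0 ≤ |K| * K₂ := by positivity
    have : 0 ≤ C₂ * (1 + 2 * b T₁ / ℓ) ^ α' := by positivity
    linarith
  -- positivity of the logarithmic term
  have hL : ∀ t ∈ Ico T₁ T, ∀ s ∈ Ioc 0 (r ^ 2), 0 < -Real.log s + 2 * b t := by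
    intro t ht s hs
    have h1 := Real.log_neg hs.1 (lt_of_le_of_lt hs.2 hr2)
    have h2 := hb0 t ht
    linarith
  have hLle : ∀ t ∈ Ico T₁ T, ∀ s : ℝ, -Real.log s + 2 * b t ≤ -Real.log s + 2 * b T₁ := by
    intro t ht s
    have h2 := hbm t ht
    linarith
  have hsle : ∀ t ∈ Ico T₁ T, ∀ s ∈ Ioc 0 (r ^ 2), s ≤ K₂ * √s * (-Real.log s + 2 * b t) ^ (-α') := by
    intro t ht s hs
    exact le_log_rpow α' (2 * b T₁) hα' (by linarith) s _ hs.1 (lt_of_le_of_lt hs.2 hr2) (hL t ht s hs) (hLle t ht s)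
  have hpos : ∀ t ∈ Ico T₁ T, ∀ s ∈ Ioc 0 (r ^ 2), 0 < (-Real.log s + 2 * b t) ^ (-α') :=
    fun t ht s hs => Real.rpow_pos_of_pos (hL t ht s hs) _
  have hsle1 : ∀ t ∈ Ico T₁ T, ∀ s ∈ Ioc 0 (r ^ 2), s ≤ K₂ * (-Real.log s + 2 * b t) ^ (-α') := by
    intro t ht s hs
    refine (hsle t ht s hs).trans ?_
    apply mul_le_mul_of_nonneg_right _ (hpos t ht s hs).le
    have : √s ≤ 1 := Real.sqrt_le_one.2 (hs.2.trans hr2.le)
    nlinarith
  have hθk : ∀ t ∈ Ico T₁ T, ∀ s ∈ Ioo 0 (r ^ 2), θ s ≤ kap δ C α' b t s := by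
    intro t ht s hs
    refine (hθ s hs).trans ?_
    unfold kap
    have hs' : s ∈ Ioc 0 (r ^ 2) := ⟨hs.1, hs.2.le⟩
    have h1 := Real.log_neg hs.1 (hs.2.trans hr2)
    rw [abs_of_neg h1]
    have h3 : ℓ ≤ -Real.log s := by
      have := Real.log_le_log hs.1 hs.2.le
      linarith
    have hls : 0 < -Real.log s := by linarith
    have h4 : -Real.log s + 2 * b t ≤ (1 + 2 * b T₁ / ℓ) * (-Real.log s) := by
      have h5 := hLle t ht s
      have h6 : 2 * b T₁ ≤ 2 * b T₁ / ℓ * (-Real.log s) := by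
        rw [div_mul_eq_mul_div, le_div_iff₀ hℓ0]
        exact mul_le_mul_of_nonneg_left h3 (by linarith)
      nlinarith
    have h5 : ((1 + 2 * b T₁ / ℓ) * (-Real.log s)) ^ (-α') ≤ (-Real.log s + 2 * b t) ^ (-α') :=
      Real.rpow_le_rpow_of_nonpos (hL t ht s hs') h4 (by linarith)
    rw [Real.mul_rpow (by positivity) hls.le] at h5
    have h6 : (1 + 2 * b T₁ / ℓ) ^ α' * (1 + 2 * b T₁ / ℓ) ^ (-α') = 1 := by
      rw [← Real.rpow_add (by positivity), add_neg_cancel, Real.rpow_zero]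
    have h7 : 0 < (-Real.log s) ^ (-α') := Real.rpow_pos_of_pos hls _
    have h8 : C₂ * (-Real.log s) ^ (-α') = C₂ * (1 + 2 * b T₁ / ℓ) ^ α' * ((1 + 2 * b T₁ / ℓ) ^ (-α') * (-Real.log s) ^ (-α')) := by
      calc C₂ * (-Real.log s) ^ (-α') = C₂ * ((1 + 2 * b T₁ / ℓ) ^ α' * (1 + 2 * b T₁ / ℓ) ^ (-α')) * (-Real.log s) ^ (-α') := by
            rw [h6, mul_one]
        _ = _ := by ring
    have h9 : 0 < (1 + 2 * b T₁ / ℓ) ^ (-α') * (-Real.log s) ^ (-α') := by positivity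
    have h10 : C₂ * (-Real.log s) ^ (-α') ≤ C * (-Real.log s + 2 * b t) ^ (-α') := by
      rw [h8]
      calc C₂ * (1 + 2 * b T₁ / ℓ) ^ α' * ((1 + 2 * b T₁ / ℓ) ^ (-α') * (-Real.log s) ^ (-α')) ≤
            C * ((1 + 2 * b T₁ / ℓ) ^ (-α') * (-Real.log s) ^ (-α')) := mul_le_mul_of_nonneg_right hC3 h9.le
        _ ≤ C * (-Real.log s + 2 * b t) ^ (-α') := mul_le_mul_of_nonneg_left h5 hC0.le
    linarith
  have hcW : ∀ t ∈ Ioo 0 T, ∀ x : V, circ (u t) x = sg x * WW (u t) x := by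
    intro t ht x
    exact ((hAlg (u t) (sliceU hA.smooth_u ht) (hA.axi t ht)).2.2.2 x).2.2.2.2.2.2.2.2.1
  have hmain := hBar T E c R H r h T₁ T u p (kap δ C α' b) (kapT C α' b (fun t => -|B t|)) (kapS C α' b)
    (kapSS C α' b) hA hr hrR hh hhH hT₁ hT₁T le_rfl
    (kap_cont δ C α' b (Ico T₁ T) (r ^ 2) hr2 hbc hb0) ?_ ?_ ?_ ?_ ?_ ?_ ?_
  · refine ⟨C, hC0.le, ?_⟩
    intro t ht x hx hs
    refine (hmain t ht x hx hs).trans ?_
    unfold kap
    have hs' : sg x ∈ Ioc 0 (r ^ 2) := ⟨hs, hx.1⟩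
    have h1 := Real.log_neg hs (lt_of_le_of_lt hx.1 hr2)
    rw [abs_of_neg h1]
    have h2 := hb0 t ht
    have h3 : (-Real.log (sg x) + 2 * b t) ^ (-α') ≤ (-Real.log (sg x)) ^ (-α') :=
      Real.rpow_le_rpow_of_nonpos (by linarith) (by linarith) (by linarith)
    have h4 := mul_le_mul_of_nonneg_left h3 hC0.le
    linarith
  · -- derivatives
    intro t ht s hs
    have ht' : t ∈ Ico T₁ T := ⟨ht.1.le, ht.2⟩
    have hs' : s ∈ Ioc 0 (r ^ 2) := ⟨hs.1, hs.2.le⟩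
    have hL' := hL t ht' s hs'
    exact ⟨kap_dt δ C α' b _ t s hL' (hbd t ⟨hT₁.trans ht.1, ht.2⟩), kap_ds δ C α' b t s hs.1 hL',
      kap_dss C α' b t s hs.1 hL'⟩
  · intro t ht
    exact kap_smooth δ C α' b t (r ^ 2) hr2 (hb0 t ⟨ht.1.le, ht.2⟩)
  · intro t ht s hs
    unfold kap
    have := mul_pos hC0 (hpos t ht s hs)
    linarith
  · -- near the axis
    intro T' hT' A
    refine ⟨(C / (|A| * K₂ + 1)) ^ 2, by positivity, ?_⟩
    intro t ht s hs hsδ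
    have ht' : t ∈ Ico T₁ T := ⟨ht.1, lt_of_le_of_lt ht.2 hT'.2⟩
    have h1 := hsle t ht' s hs
    have h2 : √s ≤ C / (|A| * K₂ + 1) := Real.sqrt_le_iff.2 ⟨by positivity, hsδ.le⟩
    rw [le_div_iff₀ (by positivity)] at h2
    have h3 := hpos t ht' s hs
    have h4 : A * s ≤ |A| * (K₂ * √s * (-Real.log s + 2 * b t) ^ (-α')) :=
      (mul_le_mul_of_nonneg_right (le_abs_self A) hs.1.le).trans (mul_le_mul_of_nonneg_left h1 (abs_nonneg A))
    unfold kap
    have h5 : |A| * K₂ * √s ≤ C := by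
      have := Real.sqrt_nonneg s
      nlinarith
    have h6 := mul_le_mul_of_nonneg_right h5 h3.le
    nlinarith
  · -- the lateral boundary
    intro t ht x hx hs hb
    have ht' : t ∈ Ioo 0 T := ⟨hT₁.trans_le ht.1, ht.2⟩
    have hs' : sg x ∈ Ioc 0 (r ^ 2) := ⟨hs, hx.1⟩
    rw [hcW t ht' x, abs_mul, abs_of_pos hs]
    have h1 := (hW t ht x hx hb).trans (le_abs_self K)
    have h2 := hsle1 t ht _ hs'
    have h3 := hpos t ht _ hs'
    unfold kap
    calc sg x * |WW (u t) x| ≤ (K₂ * (-Real.log (sg x) + 2 * b t) ^ (-α')) * |K| :=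
          mul_le_mul h2 h1 (abs_nonneg _) (by positivity)
      _ = |K| * K₂ * (-Real.log (sg x) + 2 * b t) ^ (-α') := by ring
      _ ≤ C * (-Real.log (sg x) + 2 * b t) ^ (-α') := mul_le_mul_of_nonneg_right hC1 h3.le
      _ ≤ δ + C * (-Real.log (sg x) + 2 * b t) ^ (-α') := by linarith
  · -- the initial time
    intro x hx hs
    have ht : T₁ ∈ Ico T₁ T := ⟨le_rfl, hT₁T⟩
    have hs' : sg x ∈ Ioc 0 (r ^ 2) := ⟨hs, hx.1⟩
    rw [hcW T₁ hT₁I x, abs_mul, abs_of_pos hs]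
    have h1 := (hK₁ x hx).trans (le_abs_self K₁)
    have h2 := hsle1 T₁ ht _ hs'
    have h3 := hpos T₁ ht _ hs'
    unfold kap
    calc sg x * |WW (u T₁) x| ≤ (K₂ * (-Real.log (sg x) + 2 * b T₁) ^ (-α')) * |K₁| :=
          mul_le_mul h2 h1 (abs_nonneg _) (by positivity)
      _ = |K₁| * K₂ * (-Real.log (sg x) + 2 * b T₁) ^ (-α') := by ring
      _ ≤ C * (-Real.log (sg x) + 2 * b T₁) ^ (-α') := mul_le_mul_of_nonneg_right hC2 h3.le
      _ ≤ δ + C * (-Real.log (sg x) + 2 * b T₁) ^ (-α') := by linarith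
  · -- touching points
    intro t ht x hx hs σ hσ hk h2 h0 h1
    have ht' : t ∈ Ico T₁ T := ⟨ht.1.le, ht.2⟩
    have htI : t ∈ Ioo 0 T := ⟨hT₁.trans ht.1, ht.2⟩
    have hsr : sg x < r ^ 2 := hx.1
    have hs' : sg x ∈ Ioc 0 (r ^ 2) := ⟨hs, hsr.le⟩
    have hs1 : sg x < 1 := hsr.trans hr2
    obtain ⟨d0, d1, d2, d3⟩ := ((hAlg (u t) (sliceU hA.smooth_u htI) (hA.axi t htI)).2.2.2 x).2.2.2.2.2.2.2.2.2.2.1
    have hL' := hL t ht' _ hs'
    have hkS : 0 < kapS C α' b t (sg x) := by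
      unfold kapS
      have : 0 < (-Real.log (sg x) + 2 * b t) ^ (-α' - 1) := Real.rpow_pos_of_pos hL' _
      positivity
    have hk0 : 0 < kap δ C α' b t (sg x) := by
      unfold kap
      have := mul_pos hC0 (hpos t ht' _ hs')
      linarith
    have hvort : vort (u t) x 2 = σ * (2 * kapS C α' b t (sg x)) := by
      rw [d0] at h0
      rw [d1] at h1
      have hor : x 0 ≠ 0 ∨ x 1 ≠ 0 := by
        by_contra hc
        push Not at hc
        have : sg x = 0 := by unfold sg; rw [hc.1, hc.2]; ring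
        linarith
      rcases hor with hx0 | hx1
      · apply mul_left_cancel₀ hx0
        rw [h0]; ring
      · apply mul_left_cancel₀ hx1
        rw [h1]; ring
    have hσσ : σ * σ = 1 := by rcases hσ with rfl | rfl <;> norm_num
    have habs : σ * circ (u t) x ≤ |circ (u t) x| := by
      rcases hσ with rfl | rfl
      · rw [one_mul]; exact le_abs_self _
      · rw [neg_one_mul]; exact neg_le_abs _
    have hrd := hcond t ht x hx hs
      (lt_of_le_of_lt (hθk t ht' _ ⟨hs, hsr⟩) (lt_of_lt_of_le hk habs))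
      (by rw [d3]; rw [d2] at h2; linarith)
      (by
        rw [hvort]
        have : circ (u t) x * (σ * (2 * kapS C α' b t (sg x))) = 2 * (σ * circ (u t) x) * kapS C α' b t (sg x) := by ring
        rw [this]
        have : 0 < σ * circ (u t) x := hk0.trans hk
        positivity)
    exact kap_ineq C α' α b (fun t => -|B t|) t (sg x) (B t) (rad (u t) x) hC0 hα' hαα hs hs1 (hb0 t ht') rfl hrd

/-- AXW-10. -/
theorem t_LogC (hAlg : StmAlg) (_hJnt : StmJnt) (hBar : StmBar) : StmLogC := by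
  intro T E c R H r h T₁ K u p B α α' δ hA hr hrR hr1 hh hhH hT₁ hT₁T hW hBc hBi hα' hαα hδ hcond
  exact logGen hAlg hBar T E c R H r h T₁ K u p B α α' δ 0 (fun _ => δ) hA hr hrR hr1 hh hhH hT₁ hT₁T
    hW hBc hBi hα' hαα hδ le_rfl (fun s _ => by simp) hcond

/-- AXI-24. -/
theorem t_Log (hAlg : StmAlg) (_hJnt : StmJnt) (hBar : StmBar) : StmLog := by
  intro T E c R H r h T₁ K u p B α α' C hA hr hrR hr1 hh hhH hT₁ hT₁T hW hBc hBi hα' hαα hC hcond
  have hr2 : r ^ 2 < 1 := pow_lt_one₀ hr.le hr1 (by norm_num)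
  have hr20 : 0 < r ^ 2 := by positivity
  have hlr : Real.log (r ^ 2) < 0 := Real.log_neg hr20 hr2
  have hℓ0 : 0 < -Real.log (r ^ 2) := by linarith
  obtain ⟨C', hC', hfin⟩ := logGen hAlg hBar T E c R H r h T₁ K u p B α α' 0
    (C * (-Real.log (r ^ 2)) ^ (-(α - α'))) (fun s => C * |Real.log s| ^ (-α)) hA hr hrR hr1 hh hhH hT₁ hT₁T
    hW hBc hBi hα' hαα le_rfl (by positivity) (by
      intro s hs
      have h1 := Real.log_neg hs.1 (hs.2.trans hr2)
      rw [abs_of_neg h1]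
      have h3 : -Real.log (r ^ 2) ≤ -Real.log s := by
        have := Real.log_le_log hs.1 hs.2.le
        linarith
      have hls : 0 < -Real.log s := by linarith
      have h4 : (-Real.log s) ^ (-α) = (-Real.log s) ^ (-(α - α')) * (-Real.log s) ^ (-α') := by
        rw [← Real.rpow_add hls]
        congr 1
        ring
      have h5 : (-Real.log s) ^ (-(α - α')) ≤ (-Real.log (r ^ 2)) ^ (-(α - α')) :=
        Real.rpow_le_rpow_of_nonpos hℓ0 h3 (by linarith)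
      have h6 : 0 < (-Real.log s) ^ (-α') := Real.rpow_pos_of_pos hls _
      show C * (-Real.log s) ^ (-α) ≤ 0 + C * (-Real.log (r ^ 2)) ^ (-(α - α')) * (-Real.log s) ^ (-α')
      rw [h4, zero_add, ← mul_assoc]
      apply mul_le_mul_of_nonneg_right _ h6.le
      exact mul_le_mul_of_nonneg_left h5 hC) hcond
  refine ⟨C', hC', ?_⟩
  intro t ht x hx hs
  have := hfin t ht x hx hs
  linarith

end Pool.Agent.Q65.AXI
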