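import Pool.Agent.Q65.AXI.LogA

/-!
# The logarithmic barrier with the softplus function: calculus
-/

set_option autoImplicit false

open MeasureTheory Set Filter Topology
open scoped ContDiff

namespace Pool.Agent.Q65.AXI

/-- the softplus function -/
noncomputable def sp (y : ℝ) : ℝ := Real.log (1 + Real.exp y)

/-- its derivative -/
noncomputable def sig (y : ℝ) : ℝ := Real.exp y / (1 + Real.exp y)

theorem sp_pos (y : ℝ) : 0 < sp y := by
  unfold sp
  apply Real.log_pos
  have := Real.exp_pos y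
  linarith

theorem sig_pos (y : ℝ) : 0 < sig y := by
  unfold sig
  have := Real.exp_pos y
  positivity

theorem sig_lt (y : ℝ) : sig y < 1 := by
  unfold sig
  have := Real.exp_pos y
  rw [div_lt_one (by positivity)]
  linarith

theorem le_sp (y : ℝ) : y ≤ sp y := by
  unfold sp
  have h := Real.exp_pos y
  rw [Real.le_log_iff_exp_le (by positivity)]
  linarith

theorem sp_mono {x y : ℝ} (h : x ≤ y) : sp x ≤ sp y := by
  unfold sp
  have h1 := Real.exp_pos x
  have h2 := Real.exp_le_exp.2 h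
  exact Real.log_le_log (by positivity) (by linarith)

theorem sp_le (y : ℝ) (hy : 0 ≤ y) : sp y ≤ y + 1 := by
  unfold sp
  have h := Real.exp_pos y
  rw [Real.log_le_iff_le_exp (by positivity), Real.exp_add]
  have h1 : 1 ≤ Real.exp y := Real.one_le_exp hy
  have h2 : 2 ≤ Real.exp 1 := by
    have := Real.add_one_le_exp (1 : ℝ)
    linarith
  nlinarith

theorem sp_le' (y : ℝ) : sp y ≤ max y 0 + 1 := by
  rcases le_total 0 y with h | h
  · rw [max_eq_left h]; exact sp_le y h
  · rw [max_eq_right h]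
    have := sp_mono h
    have h2 := sp_le 0 le_rfl
    linarith

theorem sp_deriv (y : ℝ) : HasDerivAt sp (sig y) y := by
  unfold sp sig
  have h := Real.exp_pos y
  have h1 : HasDerivAt (fun y => 1 + Real.exp y) (Real.exp y) y := (Real.hasDerivAt_exp y).const_add 1
  exact h1.log (by positivity)

theorem sig_deriv (y : ℝ) : HasDerivAt sig (sig y * (1 - sig y)) y := by
  have h := Real.exp_pos y
  have h0 : (1 + Real.exp y) ≠ 0 := by positivity
  have h1 : HasDerivAt (fun y => 1 + Real.exp y) (Real.exp y) y := (Real.hasDerivAt_exp y).const_add 1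
  have h2 := (Real.hasDerivAt_exp y).div h1 h0
  have h3 : sig = fun y => Real.exp y / (1 + Real.exp y) := rfl
  have h4 : sig y * (1 - sig y) = (Real.exp y * (1 + Real.exp y) - Real.exp y * Real.exp y) / (1 + Real.exp y) ^ 2 := by
    unfold sig
    field_simp
  rw [h4]
  exact h2

noncomputable def hh (a y : ℝ) : ℝ := sp y ^ (-a)

noncomputable def hh1 (a y : ℝ) : ℝ := a * (sp y ^ (-a - 1) * sig y)

noncomputable def hh2 (a y : ℝ) : ℝ :=
  a * (a + 1) * (sp y ^ (-a - 2) * sig y ^ 2) - a * (sp y ^ (-a - 1) * (sig y * (1 - sig y)))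

theorem hh_pos (a y : ℝ) : 0 < hh a y := Real.rpow_pos_of_pos (sp_pos y) _

theorem hh1_pos (a y : ℝ) (ha : 0 < a) : 0 < hh1 a y :=
  mul_pos ha (mul_pos (Real.rpow_pos_of_pos (sp_pos y) _) (sig_pos y))

theorem hh_deriv (a y : ℝ) : HasDerivAt (hh a) (-hh1 a y) y := by
  have h := (sp_deriv y).rpow_const (p := -a) (Or.inl (sp_pos y).ne')
  unfold hh hh1
  refine h.congr_deriv ?_
  ring

theorem hh1_deriv (a y : ℝ) : HasDerivAt (hh1 a) (-hh2 a y) y := by
  have h := (sp_deriv y).rpow_const (p := -a - 1) (Or.inl (sp_pos y).ne')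
  have h2 := (h.mul (sig_deriv y)).const_mul a
  unfold hh1 hh2
  refine h2.congr_deriv ?_
  have e : -a - 1 - 1 = -a - 2 := by ring
  rw [e]
  ring

theorem hh2_le (a y : ℝ) (ha : 0 < a) (hy : 0 < y) : hh2 a y ≤ (a + 1) / y * hh1 a y := by
  unfold hh1 hh2
  have h1 := sp_pos y
  have h2 := le_sp y
  have h3 := sig_pos y
  have h4 := sig_lt y
  have hX : 0 < sp y ^ (-a - 2) := Real.rpow_pos_of_pos h1 _
  have e1 : sp y ^ (-a - 1) = sp y ^ (-a - 2) * sp y := by
    rw [← Real.rpow_add_one h1.ne']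
    congr 1
    ring
  rw [e1]
  set X := sp y ^ (-a - 2)
  have h5 : 0 ≤ a * (X * sp y * (sig y * (1 - sig y))) := by
    have : 0 < 1 - sig y := by linarith
    positivity
  have h6 : a * (a + 1) * (X * sig y ^ 2) ≤ (a + 1) / y * (a * (X * sp y * sig y)) := by
    rw [div_mul_eq_mul_div, le_div_iff₀ hy]
    have h7 : sig y * y ≤ sp y := by nlinarith
    have h8 : 0 ≤ (a + 1) * a * X * sig y := by positivity
    nlinarith [mul_le_mul_of_nonneg_left h7 h8]
  linarith

theorem hh_smooth (a : ℝ) : ContDiff ℝ 2 (hh a) := by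
  unfold hh
  have h1 : ContDiff ℝ 2 sp := by
    unfold sp
    apply ContDiff.log
    · exact contDiff_const.add Real.contDiff_exp
    · intro y
      have := Real.exp_pos y
      positivity
  exact h1.rpow_const_of_ne (fun y => (sp_pos y).ne')

/-- the barrier -/
noncomputable def kp (C a : ℝ) (m : ℝ → ℝ) (t s : ℝ) : ℝ := C * hh a (-Real.log s + m t)

noncomputable def kpS (C a : ℝ) (m : ℝ → ℝ) (t s : ℝ) : ℝ := C * (hh1 a (-Real.log s + m t) / s)

noncomputable def kpSS (C a : ℝ) (m : ℝ → ℝ) (t s : ℝ) : ℝ :=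
  C * ((hh2 a (-Real.log s + m t) - hh1 a (-Real.log s + m t)) / s ^ 2)

noncomputable def kpT (C a : ℝ) (m m' : ℝ → ℝ) (t s : ℝ) : ℝ :=
  -(C * hh1 a (-Real.log s + m t) * m' t)

theorem kp_dt (C a : ℝ) (m m' : ℝ → ℝ) (t s : ℝ) (hm : HasDerivAt m (m' t) t) :
    HasDerivAt (fun τ => kp C a m τ s) (kpT C a m m' t s) t := by
  unfold kp kpT
  have h1 : HasDerivAt (fun τ => -Real.log s + m τ) (m' t) t := hm.const_add _
  have h2 := ((hh_deriv a (-Real.log s + m t)).comp t h1).const_mul C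
  refine h2.congr_deriv ?_
  ring

theorem kp_ds (C a : ℝ) (m : ℝ → ℝ) (t s : ℝ) (hs : 0 < s) :
    HasDerivAt (kp C a m t) (kpS C a m t s) s := by
  unfold kp kpS
  have h1 : HasDerivAt (fun σ => -Real.log σ + m t) (-s⁻¹) s := ((Real.hasDerivAt_log hs.ne').neg).add_const _
  have h2 := ((hh_deriv a (-Real.log s + m t)).comp s h1).const_mul C
  refine h2.congr_deriv ?_
  field_simp

theorem kp_dss (C a : ℝ) (m : ℝ → ℝ) (t s : ℝ) (hs : 0 < s) :
    HasDerivAt (kpS C a m t) (kpSS C a m t s) s := by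
  unfold kpS kpSS
  have h1 : HasDerivAt (fun σ => -Real.log σ + m t) (-s⁻¹) s := ((Real.hasDerivAt_log hs.ne').neg).add_const _
  have h2 := (hh1_deriv a (-Real.log s + m t)).comp s h1
  have h3 := (h2.div (hasDerivAt_id s) hs.ne').const_mul C
  refine h3.congr_deriv ?_
  simp only [id, Function.comp]
  field_simp

theorem kp_smooth (C a : ℝ) (m : ℝ → ℝ) (t r : ℝ) : ContDiffOn ℝ 2 (kp C a m t) (Ioo 0 r) := by
  unfold kp
  apply contDiffOn_const.mul
  apply (hh_smooth a).comp_contDiffOn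
  apply ContDiffOn.add _ contDiffOn_const
  apply ContDiffOn.neg
  intro s hs
  exact (Real.contDiffAt_log.2 hs.1.ne').contDiffWithinAt

theorem kp_cont (C a : ℝ) (m : ℝ → ℝ) (I : Set ℝ) (r : ℝ) (hm : ContinuousOn m I) :
    ContinuousOn (fun z : ℝ × ℝ => kp C a m z.1 z.2) (I ×ˢ Ioc 0 r) := by
  unfold kp
  apply continuousOn_const.mul
  apply (hh_smooth a).continuous.comp_continuousOn
  apply ContinuousOn.add
  · apply ContinuousOn.neg
    apply ContinuousOn.log continuousOn_snd
    intro z hz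
    exact hz.2.1.ne'
  · exact hm.comp continuousOn_fst (fun z hz => hz.1)

/-- the differential inequality -/
theorem kp_ineq (C a α : ℝ) (m m' : ℝ → ℝ) (t s q q' rd lm : ℝ) (hC : 0 < C) (ha : 0 < a) (haα : a < α)
    (hs : 0 < s) (hm' : m' t = -(2 * q)) (hq : q' ≤ q) (hlm : 0 < lm) (hL : lm ≤ -Real.log s + m t)
    (hrd : -2 + 2 * (α + 1) / lm - q' * s ≤ rd) :
    0 < kpT C a m m' t s + 2 * rd * kpS C a m t s - 4 * s * kpSS C a m t s := by
  unfold kpT kpS kpSS
  set L := -Real.log s + m t with hLd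
  have hL0 : 0 < L := hlm.trans_le hL
  have h1 := hh1_pos a L ha
  have h2 := hh2_le a L ha hL0
  rw [hm']
  have e2 : -(C * hh1 a L * -(2 * q)) + 2 * rd * (C * (hh1 a L / s)) - 4 * s * (C * ((hh2 a L - hh1 a L) / s ^ 2)) =
      C / s * (hh1 a L * (2 * q * s + 2 * rd + 4) - 4 * hh2 a L) := by
    field_simp
    ring
  rw [e2]
  apply mul_pos (by positivity)
  have h3 : 4 * ((α + 1) / lm) ≤ 2 * q * s + 2 * rd + 4 := by
    have h4 : q' * s ≤ q * s := mul_le_mul_of_nonneg_right hq hs.le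
    have h5 : 2 * (α + 1) / lm = 2 * ((α + 1) / lm) := by ring
    rw [h5] at hrd
    linarith
  have h6 : (a + 1) / L < (α + 1) / lm := by
    rw [div_lt_div_iff₀ hL0 hlm]
    nlinarith
  have h7 : hh1 a L * (4 * ((α + 1) / lm)) ≤ hh1 a L * (2 * q * s + 2 * rd + 4) := mul_le_mul_of_nonneg_left h3 h1.le
  nlinarith

end Pool.Agent.Q65.AXI
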