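import Pool.Agent.Q67.AXI.Defs2
import Pool.Agent.Q151.AXI.Main

/-!
Project AXW (helper67), job AXW-12: assembly (as `Pool.Agent.Q151.AXI.Main`).
-/

set_option autoImplicit false

open MeasureTheory Set Metric Filter Topology
open scoped ContDiff
open H459R3.NS Pool.Agent.W268.NS Pool.Agent.Q67.VD

namespace Pool.Agent.Q65.AXI

open Pool.Agent.Q85.CC Pool.Agent.Q85.CL Pool.Agent.TH305.AX Pool.Agent.Q67.AXI
open Pool.Agent.Q151.AXI (bdA_mono cut_mono slice)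

/-- the logarithmic term is small near the axis -/
theorem log_small (r C' a η : ℝ) (hr : 0 < r) (hr1 : r < 1) (hC' : 0 ≤ C') (ha : 0 < a) (hη : 0 < η) :
    ∃ r' : ℝ, 0 < r' ∧ r' ≤ r ∧ ∀ s : ℝ, 0 < s → s < r' ^ 2 → C' * |Real.log s| ^ (-a) ≤ η := by
  obtain ⟨Λ, hΛ⟩ : ∃ Λ : ℝ, Λ = ((C' + 1) / η) ^ (1 / a) := ⟨_, rfl⟩
  have hΛ0 : 0 < Λ := by rw [hΛ]; positivity
  refine ⟨min r (Real.exp (-Λ)), lt_min hr (Real.exp_pos _), min_le_left _ _, ?_⟩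
  intro s hs hsr
  have h1 : s < Real.exp (-Λ) := by
    have h2 : min r (Real.exp (-Λ)) ≤ Real.exp (-Λ) := min_le_right _ _
    have h3 : 0 < min r (Real.exp (-Λ)) := lt_min hr (Real.exp_pos _)
    have h4 : min r (Real.exp (-Λ)) ≤ 1 := (min_le_left _ _).trans hr1.le
    nlinarith
  have h5 : Real.log s < -Λ := by
    rwa [Real.log_lt_iff_lt_exp hs]
  have h6 : Λ ≤ |Real.log s| := by
    rw [abs_of_neg (by linarith)]
    linarith
  have h7 : |Real.log s| ^ (-a) ≤ Λ ^ (-a) := Real.rpow_le_rpow_of_nonpos hΛ0 h6 (by linarith)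
  have h8 : Λ ^ (-a) = ((C' + 1) / η)⁻¹ := by
    rw [hΛ, ← Real.rpow_mul (by positivity)]
    have : 1 / a * -a = -1 := by field_simp
    rw [this, Real.rpow_neg_one]
  rw [h8, inv_div] at h7
  calc C' * |Real.log s| ^ (-a) ≤ C' * (η / (C' + 1)) := mul_le_mul_of_nonneg_left h7 hC'
    _ ≤ η := by
        rw [mul_div_assoc', div_le_iff₀ (by positivity)]
        nlinarith

/-- Job AXW-12. -/
theorem t_MainW (gm dl : ℝ → ℝ) (hYd : StmYdW gm dl) (hWb : StmWbW dl) (hGd : StmGd)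
    (hLog : StmLogC) (hCut : StmCut) (hFin : StmFinW) (hReg : StmReg) (_hAlg : StmAlg) :
    StmMainW dl := by
  intro T E c R H T₀ u p B α μ hT hR hH hA hT₀ hBc hBi hα hμ hμ2 hcond
  obtain ⟨-, -, hdl0, hdl1, -⟩ := hYd μ hμ hμ2
  obtain ⟨r, hr⟩ : ∃ r : ℝ, r = min R 1 / 2 := ⟨_, rfl⟩
  have hr0 : 0 < r := by rw [hr]; positivity
  have hrR : r < R := by rw [hr]; have := min_le_left R 1; linarith
  have hr1 : r < 1 := by rw [hr]; have := min_le_right R 1; linarith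
  obtain ⟨h₀, hh₀⟩ : ∃ h₀ : ℝ, h₀ = min H 1 / 2 := ⟨_, rfl⟩
  have hh₀0 : 0 < h₀ := by rw [hh₀]; positivity
  have hh₀H : h₀ < H := by rw [hh₀]; have := min_le_left H 1; linarith
  have hh₀1 : h₀ < 1 := by rw [hh₀]; have := min_le_right H 1; linarith
  obtain ⟨h, h1, hh1, hh1h, hhh₀, hG⟩ := hGd T E c R H u p hT hR hH hA r h₀ hr0 hrR hh₀0 hh₀H
  have hh0 : 0 < h := hh1.trans hh1h
  have hhH : h < H := hhh₀.trans hh₀H
  obtain ⟨KA, TA, hKA, hTA0, hTAT, hbA⟩ := hG r (r / 2) le_rfl (by positivity) (by linarith)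
  obtain ⟨T₁, hT₁⟩ : ∃ T₁ : ℝ, T₁ = max TA T₀ := ⟨_, rfl⟩
  have hT₁A : TA ≤ T₁ := by rw [hT₁]; exact le_max_left _ _
  have hT₁0 : T₀ ≤ T₁ := by rw [hT₁]; exact le_max_right _ _
  have hT₁T : T₁ < T := by rw [hT₁]; exact max_lt hTAT hT₀
  have hT₁p : 0 < T₁ := hTA0.trans_le hT₁A
  have hcR : ∀ x, x ∈ Co c r h → x ∈ Co c R H := fun x hx =>
    ⟨hx.1.trans (pow_lt_pow_left₀ hrR hr0.le (by norm_num)), hx.2.trans hhH⟩
  have hs1 : ∀ x, x ∈ Co c r h → sg x < 1 := fun x hx =>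
    hx.1.trans (pow_lt_one₀ hr0.le hr1 (by norm_num))
  obtain ⟨C', hC', hcirc⟩ := hLog T E c R H r h T₁ KA u p B α (α / 2) (dl μ / 2) hA hr0 hrR hr1 hh0 hhH hT₁p
    hT₁T (by
      intro t ht x hx hb
      refine (hbA t ⟨hT₁A.trans ht.1, ht.2⟩ x ⟨hx, ?_⟩).2.2.1
      rcases hb with hb | hb
      · left
        rw [hb]
        exact pow_le_pow_left₀ (by positivity) (by linarith) 2
      · right
        rw [hb]
        exact hh1h.le) hBc hBi (by linarith) (by linarith) (by linarith) (by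
      intro t ht x hx hs
      exact (hcond t ⟨hT₁p.trans ht.1, ht.2⟩ (hT₁0.trans_lt ht.1) x (hcR x hx) hs (hs1 x hx)).2)
  -- the smaller cylinder
  obtain ⟨r', hr'0, hr'r, hsmall⟩ := log_small r C' (α / 2) (dl μ / 2) hr0 hr1 hC' (by linarith) (by linarith)
  obtain ⟨KB, TB, hKB, hTB0, hTBT, hbB⟩ := hG r' (r' / 2) hr'r (by positivity) (by linarith)
  obtain ⟨KC, φ, hKC, hφ⟩ := hCut c r' h (r' / 2) h1 (by positivity) (by linarith) hh1 hh1h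
  obtain ⟨K, hK⟩ : ∃ K : ℝ, K = max KB KC := ⟨_, rfl⟩
  have hKBK : KB ≤ K := by rw [hK]; exact le_max_left _ _
  have hKCK : KC ≤ K := by rw [hK]; exact le_max_right _ _
  have hK0 : 0 ≤ K := hKB.trans hKBK
  obtain ⟨T₂, hT₂⟩ : ∃ T₂ : ℝ, T₂ = max T₁ TB := ⟨_, rfl⟩
  have hT₂1 : T₁ ≤ T₂ := by rw [hT₂]; exact le_max_left _ _
  have hT₂B : TB ≤ T₂ := by rw [hT₂]; exact le_max_right _ _
  have hT₂T : T₂ < T := by rw [hT₂]; exact max_lt hT₁T hTBT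
  have hT₂0 : 0 < T₂ := hT₁p.trans_le hT₂1
  -- start later, so that the condition holds at the initial time as well
  obtain ⟨T₃, hT₃⟩ : ∃ T₃ : ℝ, T₃ = (T₂ + T) / 2 := ⟨_, rfl⟩
  have hT₃2 : T₂ < T₃ := by rw [hT₃]; linarith
  have hT₃T : T₃ < T := by rw [hT₃]; linarith
  have hT₃0 : 0 < T₃ := hT₂0.trans hT₃2
  have hφ' := cut_mono hKCK hφ
  have hsub' : ∀ x, x ∈ Co c r' h → x ∈ Co c r h := fun x hx =>
    ⟨hx.1.trans_le (pow_le_pow_left₀ hr'0.le hr'r 2), hx.2⟩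
  have hbK : ∀ t ∈ Ico T₃ T, ∀ x ∈ Out c r' h (r' / 2) h1, BdA K (u t) x := fun t ht x hx =>
    bdA_mono hKBK (hbB t ⟨hT₂B.trans (hT₃2.le.trans ht.1), ht.2⟩ x hx)
  have hcK : ∀ t ∈ Ico T₃ T, ∀ x ∈ Co c r' h, |circ (u t) x| ≤ dl μ := by
    intro t ht x hx
    rcases (sg_nonneg x).eq_or_lt with hs | hs
    · have h0 : x 0 = 0 := by
        unfold sg at hs
        nlinarith [sq_nonneg (x 0), sq_nonneg (x 1)]
      have h1' : x 1 = 0 := by
        unfold sg at hs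
        nlinarith [sq_nonneg (x 0), sq_nonneg (x 1)]
      have : circ (u t) x = 0 := by
        unfold circ
        rw [h0, h1']
        ring
      rw [this, abs_zero]
      exact hdl0.le
    · have h5 := hcirc t ⟨hT₂1.trans (hT₃2.le.trans ht.1), ht.2⟩ x
        ⟨(hsub' x hx).1.le, hx.2.le⟩ hs
      have h6 := hsmall (sg x) hs hx.1
      linarith
  have hrad : ∀ t ∈ Ico T₃ T, ∀ x ∈ Co c r' h, 0 < sg x → rad (u t) x ≤ 2 - μ + B t * sg x := by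
    intro t ht x hx hs
    exact (hcond t ⟨hT₃0.trans_le ht.1, ht.2⟩ (lt_of_le_of_lt (hT₁0.trans hT₂1) (hT₃2.trans_le ht.1)) x
      (hcR x (hsub' x hx)) hs (hs1 x (hsub' x hx))).1
  have hI3 : Ico T₃ T ⊆ Ioo 0 T := fun t ht => ⟨hT₃0.trans_le ht.1, ht.2⟩
  obtain ⟨K', hK', hWK⟩ := hWb μ hμ hμ2 T E c R H K r' h (r' / 2) h1 T₃ u p B φ hA hK0 (by positivity)
    (by linarith) (by linarith) (by linarith) hh1 hh1h hhH (by linarith) hT₃0 hT₃T hφ'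
    (hBc.mono hI3) (hBi.mono_set hI3) hbK hcK hrad
  obtain ⟨hqt, K₀, hK₀, hmo⟩ := hFin T E c R H (r' / 2) h1 T₃ K' u p hA
    (by positivity) (by linarith) hh1 (by linarith) hT₃0 hT₃T hK' hWK
  obtain ⟨ε, hε, hreg⟩ := hReg K₀ hK₀
  refine hreg T E (Co c R H) u p hT hA.toLSl ![0, 0, c] ?_ hmo (hqt ε hε)
  refine ⟨?_, ?_⟩
  · have : sg (![0, 0, c] : V) = 0 := by
      unfold sg
      simp
    rw [this]
    positivity
  · show |c - c| < H
    rw [sub_self, abs_zero]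
    exact hH

end Pool.Agent.Q65.AXI
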