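import Pool.Agent.Q67.AXI.Defs3
import Pool.Agent.Q285.AXI.Yi
import Pool.Agent.Q65.AXI.LogC
import Pool.Agent.Q65.AXI.BtA

/-!
Project AXP (helper67), job AXP-5: the bound of `WW` (bootstrap).
-/

set_option autoImplicit false

open MeasureTheory Set Metric Filter Topology
open scoped ContDiff
open H459R3.NS Pool.Agent.W268.NS Pool.Agent.Q67.VD

namespace Pool.Agent.Q65.AXI

open Pool.Agent.Q85.CC Pool.Agent.Q85.CL Pool.Agent.TH305.AX Pool.Agent.Q67.AXI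
open Pool.Agent.Q285.AXI (slice co_mono gsq_nn dis_int)

/-- the final step of the bootstrap -/
theorem boot_fin (S K M₀ C₄ : ℝ) (hC₄ : 0 ≤ C₄) (hM₀ : 1 ≤ M₀) (h : S ≤ max K (C₄ * (max M₀ S) ^ (7 / 16 : ℝ))) :
    S ≤ max (max M₀ K) (C₄ ^ (16 / 9 : ℝ)) := by
  rcases le_total S M₀ with h1 | h1
  · exact h1.trans ((le_max_left _ _).trans (le_max_left _ _))
  · rw [max_eq_right h1] at h
    rcases le_max_iff.1 h with h2 | h2
    · exact h2.trans ((le_max_right _ _).trans (le_max_left _ _))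
    · have hS : 0 < S := by linarith
      have h3 : S ^ (9 / 16 : ℝ) ≤ C₄ := by
        have h4 : S = S ^ (9 / 16 : ℝ) * S ^ (7 / 16 : ℝ) := by
          rw [← Real.rpow_add hS]
          norm_num
        have h5 : 0 < S ^ (7 / 16 : ℝ) := Real.rpow_pos_of_pos hS _
        have h6 : S ^ (9 / 16 : ℝ) * S ^ (7 / 16 : ℝ) ≤ C₄ * S ^ (7 / 16 : ℝ) := by
          rw [← h4]; exact h2
        exact le_of_mul_le_mul_right h6 h5
      have h7 : (S ^ (9 / 16 : ℝ)) ^ (16 / 9 : ℝ) ≤ C₄ ^ (16 / 9 : ℝ) :=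
        Real.rpow_le_rpow (Real.rpow_nonneg hS.le _) h3 (by norm_num)
      rw [← Real.rpow_mul hS.le] at h7
      norm_num at h7
      exact h7.trans (le_max_right _ _)

theorem GD_nn (f : V → ℝ) : 0 ≤ GD f :=
  integral_nonneg fun _ => Finset.sum_nonneg fun _ _ => sq_nonneg _

/-- The dissipation of `OO` up to the time `t`, if `|WW| ≤ M`. -/
theorem dissip (hJnt : StmJnt) (hDt : StmDt) (hYd : StmYdP) (T E c R H K r h r1 h1 T₁ C' C₀ α' θ : ℝ)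
    (u : ℝ → V → V) (p : ℝ → V → ℝ) (φ : V → ℝ) (hA : AxL T E c R H u p) (hK : 0 ≤ K) (hr1 : 0 < r1)
    (hr1r : r1 < r) (hrR : r < R) (hr2 : r ^ 2 ≤ Real.exp (-2)) (hh1 : 0 < h1) (hh1h : h1 < h) (hhH : h < H)
    (hh : h ≤ 1) (hT₁ : 0 < T₁) (hT₁T : T₁ < T) (hC' : 0 ≤ C') (hC₀ : 0 ≤ C₀) (hα : 3 / 2 < α') (hα2 : α' ≤ 2)
    (hθ : 0 < θ) (hθ1 : θ < 1) (hcut : Cut c r h r1 h1 K φ)
    (hout : ∀ t ∈ Ico T₁ T, ∀ x ∈ Out c r h r1 h1, BdA K (u t) x)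
    (hcirc : ∀ t ∈ Ico T₁ T, ∀ x ∈ Co c r h, |circ (u t) x| ≤ C₀ ∧
      (sg x ≠ 0 → sg x ≤ (T - t) ^ θ → |circ (u t) x| ≤ C' * |Real.log (sg x)| ^ (-α'))) :
    ∃ C₇ M₀ : ℝ, 0 ≤ C₇ ∧ 3 ≤ M₀ ∧ ∀ M : ℝ, M₀ ≤ M → ∀ t ∈ Ico T₁ T,
      (∀ s ∈ Icc T₁ t, ∀ x ∈ Co c r h, |WW (u s) x| ≤ M) →
      ∫ s in T₁..t, GD (fun x => φ x * OO (u s) x) ≤ C₇ * M ^ (7 / 16 : ℝ) := by
  obtain ⟨ε₀, hε₀⟩ : ∃ ε₀ : ℝ, ε₀ = min (1 / 16) ((1 - θ) / (16 * θ)) := ⟨_, rfl⟩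
  have hε0 : 0 < ε₀ := by
    rw [hε₀]
    have : 0 < (1 - θ) / (16 * θ) := div_pos (by linarith) (by positivity)
    exact lt_min (by norm_num) this
  have hε1 : ε₀ ≤ 1 / 16 := by rw [hε₀]; exact min_le_left _ _
  have hε2 : ε₀ ≤ (1 - θ) / (16 * θ) := by rw [hε₀]; exact min_le_right _ _
  obtain ⟨C, M₀, hC, hM₀, hyd⟩ := hYd T E c R H K r h r1 h1 T₁ C' C₀ α' θ ε₀ u p φ hA hK hr1 hr1r hrR hr2
    hh1 hh1h hhH hh hT₁ hT₁T hC' hC₀ hα hα2 hε0 hcut hout hcirc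
  have hr0 : 0 < r := hr1.trans hr1r
  have hsub : Co c r h ⊆ Co c R H := co_mono hr0 hrR hhH
  obtain ⟨G, hG⟩ : ∃ G : ℝ → ℝ, G = fun t => ∫ x in Co c r h, W221.NS.gsq (u t) x := ⟨_, rfl⟩
  have hGint : IntegrableOn G (Ioo 0 T) := by rw [hG]; exact dis_int hsub hA.dis
  have hGnn : ∀ t, 0 ≤ G t := by
    intro t
    rw [hG]
    exact integral_nonneg fun x => gsq_nn _ x
  obtain ⟨D, hD⟩ : ∃ D : ℝ, D = ∫ s in Ioo 0 T, G s := ⟨_, rfl⟩
  have hD0 : 0 ≤ D := by rw [hD]; exact integral_nonneg fun x => hGnn x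
  -- the initial energy
  obtain ⟨Y₁, hY₁⟩ : ∃ Y₁ : ℝ, Y₁ = (∫ x, φ x ^ 2 * JJ (u T₁) x ^ 2) + ∫ x, φ x ^ 2 * OO (u T₁) x ^ 2 := ⟨_, rfl⟩
  have hJJ0 : ∀ s, 0 ≤ ∫ x, φ x ^ 2 * JJ (u s) x ^ 2 := fun s => integral_nonneg fun x => by positivity
  have hOO0 : ∀ s, 0 ≤ ∫ x, φ x ^ 2 * OO (u s) x ^ 2 := fun s => integral_nonneg fun x => by positivity
  have hY₁0 : 0 ≤ Y₁ := by rw [hY₁]; exact add_nonneg (hJJ0 _) (hOO0 _)
  obtain ⟨κ, hκ⟩ : ∃ κ : ℝ, κ = (1 - θ) / 2 := ⟨_, rfl⟩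
  have hκ0 : 0 < κ := by rw [hκ]; linarith
  obtain ⟨e₀, he₀⟩ : ∃ e₀ : ℝ, e₀ = Real.exp (-(C * ((T - T₁) ^ κ / κ))) := ⟨_, rfl⟩
  have he0 : 0 < e₀ := by rw [he₀]; exact Real.exp_pos _
  have hT0 : 0 < T := hT₁.trans hT₁T
  refine ⟨(1 + Y₁ + C * (T + D)) / e₀, M₀, by positivity, hM₀, ?_⟩
  intro M hM t ht hW
  have hM1 : 1 ≤ M := by linarith
  have hMp : 0 < M := by linarith
  obtain ⟨l, hl1, hl2, hl⟩ := hyd M hM
  have hl0 : 0 < l := (Real.rpow_pos_of_pos hMp _).trans_le hl1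
  have hsub2 : Icc T₁ t ⊆ Ioo 0 T := fun s hs => ⟨hT₁.trans_le hs.1, hs.2.trans_lt ht.2⟩
  obtain ⟨Y, hY⟩ : ∃ Y : ℝ → ℝ, Y = fun s => (∫ x, φ x ^ 2 * JJ (u s) x ^ 2)
      + l * ∫ x, φ x ^ 2 * OO (u s) x ^ 2 := ⟨_, rfl⟩
  have hYnn : ∀ s, 0 ≤ Y s := by
    intro s
    rw [hY]
    exact add_nonneg (hJJ0 s) (mul_nonneg hl0.le (hOO0 s))
  have hder : ∀ s ∈ Icc T₁ t, ∃ D' : ℝ, HasDerivAt Y D' s ∧
      D' ≤ -(GD (fun x => φ x * JJ (u s) x) + l * GD (fun x => φ x * OO (u s) x)) +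
        C * M ^ (3 / 8 : ℝ) * (1 + G s) + C * (T - s) ^ (κ - 1) * (1 + Y s) := by
    intro s hs
    have hs' : s ∈ Ico T₁ T := ⟨hs.1, hs.2.trans_lt ht.2⟩
    obtain ⟨D', hD1, hD2⟩ := hl s hs' (hW s hs)
    refine ⟨D', by rw [hY]; exact hD1, hD2.trans ?_⟩
    have hTs : 0 < T - s := by linarith [hs'.2]
    have hw0 : 0 < (T - s) ^ (κ - 1) := Real.rpow_pos_of_pos hTs _
    have hPM : PM M ((T - s) ^ θ) ≤ M ^ (-((1 - θ) / (16 * θ))) * (T - s) ^ (κ - 1) := by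
      have h5 := PM_le M ((T - s) ^ θ) (T - s) θ hM1 hTs hθ hθ1 rfl
      have h6 : κ - 1 = -((1 + θ) / 2) := by rw [hκ]; ring
      rw [h6]
      exact h5
    have hle1 : M ^ (-((1 - θ) / (16 * θ))) ≤ l := by
      refine le_trans (Real.rpow_le_rpow_of_exponent_le hM1 ?_) hl1
      linarith
    have hPM0 : PM M ((T - s) ^ θ) ≤ l * (T - s) ^ (κ - 1) :=
      hPM.trans (mul_le_mul_of_nonneg_right hle1 hw0.le)
    have hPM1 : PM M ((T - s) ^ θ) * (1 + Y s / l) ≤ (T - s) ^ (κ - 1) * (1 + Y s) := by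
      have h7 : 0 ≤ 1 + Y s / l := by have := div_nonneg (hYnn s) hl0.le; linarith
      calc PM M ((T - s) ^ θ) * (1 + Y s / l) ≤ l * (T - s) ^ (κ - 1) * (1 + Y s / l) :=
            mul_le_mul_of_nonneg_right hPM0 h7
        _ = (T - s) ^ (κ - 1) * (l + Y s) := by field_simp
        _ ≤ (T - s) ^ (κ - 1) * (1 + Y s) := mul_le_mul_of_nonneg_left (by linarith) hw0.le
    have h8 : C * PM M ((T - s) ^ θ) * (1 + Y s / l) ≤ C * (T - s) ^ (κ - 1) * (1 + Y s) := by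
      have := mul_le_mul_of_nonneg_left hPM1 hC
      calc C * PM M ((T - s) ^ θ) * (1 + Y s / l) = C * (PM M ((T - s) ^ θ) * (1 + Y s / l)) := by ring
        _ ≤ C * ((T - s) ^ (κ - 1) * (1 + Y s)) := this
        _ = _ := by ring
    have h9 : Y s = (∫ x, φ x ^ 2 * JJ (u s) x ^ 2) + l * ∫ x, φ x ^ 2 * OO (u s) x ^ 2 := by rw [hY]
    have h10 : G s = ∫ x in Co c r h, W221.NS.gsq (u s) x := by rw [hG]
    rw [h9] at h8 ⊢
    rw [h10]
    linarith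
  choose! Y' hY1 hY2 using hder
  obtain ⟨hB, -⟩ := hDt T (fun s => OO (u s)) φ (hJnt T u hA.smooth_u).2.2.2 hcut.sm hcut.cs
  have hGi : IntegrableOn G (Icc T₁ t) := hGint.mono_set hsub2
  have hGD : ∫ s in T₁..t, G s ≤ D := by
    rw [intervalIntegral.integral_of_le ht.1, hD]
    refine setIntegral_mono_set hGint ?_ ?_
    · exact Eventually.of_forall fun s => hGnn s
    · exact (Ioc_subset_Icc_self.trans hsub2).eventuallyLE
  have key := gronw T T₁ t C κ D l (C * M ^ (3 / 8 : ℝ)) Y (fun s => GD (fun x => φ x * JJ (u s) x))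
    (fun s => GD (fun x => φ x * OO (u s) x)) G Y' ht.1 ht.2 hκ0 hC (by positivity) hT₁.le hl0.le
    (fun s _ => hYnn s) hY1 (fun s _ => GD_nn _) (fun s _ => GD_nn _) (hB.mono hsub2) hGnn hGi hGD hY2
  rw [← he₀] at key
  have hYT : Y T₁ ≤ Y₁ := by
    rw [hY, hY₁]
    simp only
    have := mul_le_mul_of_nonneg_right hl2 (hOO0 T₁)
    linarith
  have hI0 : 0 ≤ ∫ s in T₁..t, GD (fun x => φ x * OO (u s) x) :=
    intervalIntegral.integral_nonneg ht.1 (fun s _ => GD_nn _)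
  have hM38 : 1 ≤ M ^ (3 / 8 : ℝ) := Real.one_le_rpow hM1 (by norm_num)
  have h11 : 1 + Y T₁ + C * M ^ (3 / 8 : ℝ) * (T + D) ≤ (1 + Y₁ + C * (T + D)) * M ^ (3 / 8 : ℝ) := by
    have : (1 + Y₁) * 1 ≤ (1 + Y₁) * M ^ (3 / 8 : ℝ) := mul_le_mul_of_nonneg_left hM38 (by linarith)
    nlinarith
  have h12 : l * ∫ s in T₁..t, GD (fun x => φ x * OO (u s) x) ≤ (1 + Y₁ + C * (T + D)) / e₀ * M ^ (3 / 8 : ℝ) := by
    rw [div_mul_eq_mul_div, le_div_iff₀ he0]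
    linarith
  have h13 : M ^ (-ε₀) * ∫ s in T₁..t, GD (fun x => φ x * OO (u s) x) ≤ (1 + Y₁ + C * (T + D)) / e₀ * M ^ (3 / 8 : ℝ) :=
    (mul_le_mul_of_nonneg_right hl1 hI0).trans h12
  have h14 : M ^ ε₀ * M ^ (-ε₀) = 1 := by
    rw [← Real.rpow_add hMp, add_neg_cancel, Real.rpow_zero]
  have h15 : M ^ ε₀ * M ^ (3 / 8 : ℝ) ≤ M ^ (7 / 16 : ℝ) := by
    rw [← Real.rpow_add hMp]
    apply Real.rpow_le_rpow_of_exponent_le hM1
    linarith
  have hMε : 0 < M ^ ε₀ := Real.rpow_pos_of_pos hMp _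
  have hcst : 0 ≤ (1 + Y₁ + C * (T + D)) / e₀ := by positivity
  calc ∫ s in T₁..t, GD (fun x => φ x * OO (u s) x) =
        M ^ ε₀ * (M ^ (-ε₀) * ∫ s in T₁..t, GD (fun x => φ x * OO (u s) x)) := by
        rw [← mul_assoc, h14, one_mul]
    _ ≤ M ^ ε₀ * ((1 + Y₁ + C * (T + D)) / e₀ * M ^ (3 / 8 : ℝ)) := mul_le_mul_of_nonneg_left h13 hMε.le
    _ = (1 + Y₁ + C * (T + D)) / e₀ * (M ^ ε₀ * M ^ (3 / 8 : ℝ)) := by ring
    _ ≤ (1 + Y₁ + C * (T + D)) / e₀ * M ^ (7 / 16 : ℝ) := mul_le_mul_of_nonneg_left h15 hcst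

/-- AXP-5. -/
theorem t_BtP (_hAlg : StmAlg) (hJnt : StmJnt) (hDt : StmDt) (hU : StmU) (hYd : StmYdP) (hSm : StmSm) :
    StmBtP := by
  intro T E c R H K r h r1 h1 T₁ C' C₀ α' θ u p φ hA hK hr1 hr1r hrR hr2 hh1 hh1h hhH hh hT₁ hT₁T hC' hC₀
    hα hα2 hθ hθ1 hcut hout hcirc
  obtain ⟨C₇, M₀, hC₇, hM₀, hdis⟩ := dissip hJnt hDt hYd T E c R H K r h r1 h1 T₁ C' C₀ α' θ u p φ hA hK hr1
    hr1r hrR hr2 hh1 hh1h hhH hh hT₁ hT₁T hC' hC₀ hα hα2 hθ hθ1 hcut hout hcirc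
  have hr0 : 0 < r := hr1.trans hr1r
  have hh0 : 0 < h := hh1.trans hh1h
  have hr1' : r ≤ 1 := by
    by_contra hcon
    push Not at hcon
    have : Real.exp (-2) < 1 := by
      rw [Real.exp_lt_one_iff]
      norm_num
    nlinarith
  have hsub : Co c r h ⊆ Co c R H := co_mono hr0 hrR hhH
  obtain ⟨CU, hCU, hU'⟩ := hU K c r h r1 h1 hK hr1 hr1r hr1' hh1 hh1h hh
  -- the smaller cylinder
  have hin : ∀ x ∈ Cy c r1 h1, x ∈ Co c r h := by
    intro x hx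
    refine ⟨hx.1.trans_lt ?_, hx.2.trans_lt hh1h⟩
    exact pow_lt_pow_left₀ hr1r hr1.le (by norm_num)
  have hbdr : ∀ x ∈ Cy c r h, (r1 ^ 2 ≤ sg x ∨ h1 ≤ |x 2 - c|) → x ∈ Out c r h r1 h1 := fun x hx hb => ⟨hx, hb⟩
  obtain ⟨CS, hCS, hSm'⟩ := hSm T E c R H r1 h1 T₁ K C₀ u p hA hr1 (hr1r.trans hrR) hh1 (hh1h.trans hhH)
    hT₁ hT₁T (by
      intro t ht x hx
      have hx' := hin x hx
      refine ⟨(hcirc t ht x hx').1, ?_⟩
      intro hb
      refine (hout t ht x ⟨⟨hx'.1.le, hx'.2.le⟩, ?_⟩).2.2.1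
      rcases hb with hb | hb
      · left; exact hb.ge
      · right; exact hb.ge)
  obtain ⟨CV, hCV⟩ : ∃ CV : ℝ, CV = (CU + 1) * (1 + C₇) := ⟨_, rfl⟩
  have hCV0 : 1 ≤ CV := by rw [hCV]; nlinarith
  have hBc : ContinuousOn (fun s => GD (fun x => φ x * OO (u s) x)) (Ioo 0 T) :=
    (hDt T (fun s => OO (u s)) φ (hJnt T u hA.smooth_u).2.2.2 hcut.sm hcut.cs).1
  -- the a priori estimate
  have hapr : ∀ M : ℝ, M₀ ≤ M → ∀ t ∈ Ico T₁ T, (∀ s ∈ Icc T₁ t, ∀ x ∈ Co c r h, |WW (u s) x| ≤ M) →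
      ∀ t' ∈ Icc T₁ t, ∀ x ∈ Cy c r h, |WW (u t') x| ≤ max K (CS * CV * M ^ (7 / 16 : ℝ)) := by
    intro M hM t ht hW t' ht' x hx
    have hM1 : 1 ≤ M := by linarith
    have hMp : 0 < M := by linarith
    have ht'T : t' ∈ Ico T₁ T := ⟨ht'.1, ht'.2.trans_lt ht.2⟩
    by_cases hxo : r1 ^ 2 ≤ sg x ∨ h1 ≤ |x 2 - c|
    · exact ((hout t' ht'T x (hbdr x hx hxo)).2.2.1).trans (le_max_left _ _)
    · push Not at hxo
      refine le_trans ?_ (le_max_right _ _)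
      obtain ⟨Λ, hΛ⟩ : ∃ Λ : ℝ, Λ = CV * M ^ (7 / 16 : ℝ) := ⟨_, rfl⟩
      have hM7 : 1 ≤ M ^ (7 / 16 : ℝ) := Real.one_le_rpow hM1 (by norm_num)
      have hΛ1 : 1 ≤ Λ := by rw [hΛ]; nlinarith
      have hΛ0 : 0 < Λ := by linarith
      obtain ⟨g, hg⟩ : ∃ g : ℝ → ℝ, g = fun s => √(CU * (1 + GD (fun x => φ x * OO (u s) x))) := ⟨_, rfl⟩
      have hsub' : Icc T₁ t' ⊆ Ioo 0 T := fun s hs => ⟨hT₁.trans_le hs.1, (hs.2.trans ht'.2).trans_lt ht.2⟩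
      have hgc : ContinuousOn g (Icc T₁ t') := by
        rw [hg]
        apply ContinuousOn.sqrt
        apply continuousOn_const.mul
        apply continuousOn_const.add
        exact hBc.mono hsub'
      have h5 := hSm' (1 / Λ) ⟨by positivity, by rw [div_le_one hΛ0]; exact hΛ1⟩ t' ht'T g hgc (by
        intro s hs y hy
        have hs' : s ∈ Ioo 0 T := hsub' hs
        obtain ⟨-, -, u3, -⟩ := hU' (u s) φ (slice hA.smooth_u hs') (hA.axi s hs')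
          (fun x hx => hA.divfree s hs' x (hsub hx)) hcut (hout s ⟨hs.1, hs'.2⟩)
        have h6 := u3 y
        rw [hcut.one y hy, one_mul] at h6
        rw [hg]
        exact Real.abs_le_sqrt h6) (by
        -- the integral over the short interval
        obtain ⟨t₀, ht₀⟩ : ∃ t₀ : ℝ, t₀ = max T₁ (t' - 1 / Λ) := ⟨_, rfl⟩
        rw [← ht₀]
        have ht₀1 : T₁ ≤ t₀ := by rw [ht₀]; exact le_max_left _ _
        have ht₀2 : t' - 1 / Λ ≤ t₀ := by rw [ht₀]; exact le_max_right _ _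
        have ht₀3 : t₀ ≤ t' := by
          rw [ht₀]
          refine max_le ht'.1 ?_
          have : 0 < 1 / Λ := by positivity
          linarith
        have hBcc : ContinuousOn (fun s => GD (fun x => φ x * OO (u s) x)) (Icc T₁ t') := hBc.mono hsub'
        have hIcc : Icc t₀ t' ⊆ Icc T₁ t' := Icc_subset_Icc_left ht₀1
        have i1 : IntervalIntegrable g volume t₀ t' :=
          ((hgc.mono hIcc).intervalIntegrable_of_Icc ht₀3)
        have i2 : IntervalIntegrable (fun s => GD (fun x => φ x * OO (u s) x)) volume t₀ t' :=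
          ((hBcc.mono hIcc).intervalIntegrable_of_Icc ht₀3)
        have i3 : IntervalIntegrable (fun s => GD (fun x => φ x * OO (u s) x)) volume T₁ t₀ :=
          ((hBcc.mono (Icc_subset_Icc_right ht₀3)).intervalIntegrable_of_Icc ht₀1)
        have hpt : ∀ s ∈ Icc t₀ t', g s ≤ Λ / 2 + CU / (2 * Λ) * (1 + GD (fun x => φ x * OO (u s) x)) := by
          intro s _
          rw [hg]
          simp only
          have hX : 0 ≤ CU * (1 + GD (fun x => φ x * OO (u s) x)) := mul_nonneg hCU (by linarith [GD_nn (fun x => φ x * OO (u s) x)])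
          have h7 := Real.sq_sqrt hX
          have h8 : √(CU * (1 + GD (fun x => φ x * OO (u s) x))) ≤ Λ / 2 + (CU * (1 + GD (fun x => φ x * OO (u s) x))) / (2 * Λ) := by
            rw [← h7, Real.sqrt_sq (Real.sqrt_nonneg _)]
            have h9 : Λ / 2 + √(CU * (1 + GD (fun x => φ x * OO (u s) x))) ^ 2 / (2 * Λ) - √(CU * (1 + GD (fun x => φ x * OO (u s) x))) =
                (Λ - √(CU * (1 + GD (fun x => φ x * OO (u s) x)))) ^ 2 / (2 * Λ) := by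
              field_simp
              ring
            have h10 : 0 ≤ (Λ - √(CU * (1 + GD (fun x => φ x * OO (u s) x)))) ^ 2 / (2 * Λ) := by positivity
            linarith
          refine h8.trans (le_of_eq ?_)
          ring
        have hint := intervalIntegral.integral_mono_on ht₀3 i1
          ((intervalIntegrable_const (c := Λ / 2)).add (((intervalIntegrable_const (c := (1 : ℝ))).add i2).const_mul (CU / (2 * Λ)))) hpt
        refine hint.trans ?_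
        rw [intervalIntegral.integral_add intervalIntegrable_const (((intervalIntegrable_const (c := (1 : ℝ))).add i2).const_mul (CU / (2 * Λ))),
          intervalIntegral.integral_const_mul, intervalIntegral.integral_add intervalIntegrable_const i2,
          intervalIntegral.integral_const, intervalIntegral.integral_const, smul_eq_mul, smul_eq_mul, mul_one]
        have hlen : t' - t₀ ≤ 1 / Λ := by linarith
        have hlen1 : t' - t₀ ≤ 1 := by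
          have : 1 / Λ ≤ 1 := by rw [div_le_one hΛ0]; exact hΛ1
          linarith
        have hIB : ∫ s in t₀..t', GD (fun x => φ x * OO (u s) x) ≤ C₇ * M ^ (7 / 16 : ℝ) := by
          have h11 := hdis M hM t' ht'T (fun s hs => hW s ⟨hs.1, hs.2.trans ht'.2⟩)
          rw [← intervalIntegral.integral_add_adjacent_intervals i3 i2] at h11
          have h12 : 0 ≤ ∫ s in T₁..t₀, GD (fun x => φ x * OO (u s) x) :=
            intervalIntegral.integral_nonneg ht₀1 (fun s _ => GD_nn _)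
          linarith
        have h13 : (t' - t₀) * (Λ / 2) ≤ 1 / 2 := by
          calc (t' - t₀) * (Λ / 2) ≤ 1 / Λ * (Λ / 2) := mul_le_mul_of_nonneg_right hlen (by positivity)
            _ = 1 / 2 := by field_simp
        have h14 : CU / (2 * Λ) * (t' - t₀ + ∫ s in t₀..t', GD (fun x => φ x * OO (u s) x)) ≤ 1 / 2 := by
          have h15 : t' - t₀ + ∫ s in t₀..t', GD (fun x => φ x * OO (u s) x) ≤ (1 + C₇) * M ^ (7 / 16 : ℝ) := by
            nlinarith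
          have h16 : CU / (2 * Λ) * ((1 + C₇) * M ^ (7 / 16 : ℝ)) ≤ 1 / 2 := by
            rw [div_mul_eq_mul_div, div_le_iff₀ (by positivity), hΛ, hCV]
            have : 0 ≤ (1 + C₇) * M ^ (7 / 16 : ℝ) := by positivity
            nlinarith
          exact (mul_le_mul_of_nonneg_left h15 (by positivity)).trans h16
        linarith) x ⟨hxo.1.le, hxo.2.le⟩
      refine h5.trans (le_of_eq ?_)
      rw [hΛ]
      field_simp
  -- the supremum
  refine ⟨max (max M₀ K) ((CS * CV) ^ (16 / 9 : ℝ)), ?_, ?_⟩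
  · exact le_trans (by linarith) ((le_max_left M₀ K).trans (le_max_left _ _))
  · intro t ht x hx
    have hsub2 : Icc T₁ t ⊆ Ioo 0 T := fun s hs => ⟨hT₁.trans_le hs.1, hs.2.trans_lt ht.2⟩
    have hWj := (hJnt T u hA.smooth_u).2.1.continuousOn
    have hcomp : IsCompact (Icc T₁ t ×ˢ Cy c r h) := isCompact_Icc.prod (cyCompact c r h)
    have hxC : x ∈ Cy c r h := ⟨hx.1.le, hx.2.le⟩
    have hne : (Icc T₁ t ×ˢ Cy c r h).Nonempty := ⟨(t, x), ⟨⟨ht.1, le_rfl⟩, hxC⟩⟩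
    have hcont : ContinuousOn (fun z : ℝ × V => |WW (u z.1) z.2|) (Icc T₁ t ×ˢ Cy c r h) :=
      (hWj.mono (prod_mono hsub2 (subset_univ _))).abs
    obtain ⟨⟨t₀, x₀⟩, ⟨ht₀, hx₀⟩, hmax⟩ := hcomp.exists_isMaxOn hne hcont
    have hmax' : ∀ s ∈ Icc T₁ t, ∀ y ∈ Cy c r h, |WW (u s) y| ≤ |WW (u t₀) x₀| := fun s hs y hy =>
      hmax (show (s, y) ∈ Icc T₁ t ×ˢ Cy c r h from ⟨hs, hy⟩)
    have hS := hapr (max M₀ |WW (u t₀) x₀|) (le_max_left _ _) t ht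
      (fun s hs y hy => (hmax' s hs y ⟨hy.1.le, hy.2.le⟩).trans (le_max_right _ _)) t₀ ht₀ x₀ hx₀
    have hfin := boot_fin _ K M₀ (CS * CV) (by positivity) (by linarith) hS
    exact (hmax' t ⟨ht.1, le_rfl⟩ x hxC).trans hfin

end Pool.Agent.Q65.AXI
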