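import Pool.Agent.Q67.AXI.Defs3
import Pool.Agent.Q151.AXI.Main

/-!
Project AXP (helper67), job AXP-7: assembly (as `Pool.Agent.Q151.AXI.Main`).
-/

set_option autoImplicit false

open MeasureTheory Set Metric Filter Topology
open scoped ContDiff
open H459R3.NS Pool.Agent.W268.NS Pool.Agent.Q67.VD

namespace Pool.Agent.Q65.AXI

open Pool.Agent.Q85.CC Pool.Agent.Q85.CL Pool.Agent.TH305.AX Pool.Agent.Q67.AXI
open Pool.Agent.Q151.AXI (bdA_mono cut_mono slice inner)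

/-- Job AXP-7. -/
theorem t_MainP (hGd : StmGd) (hLog : StmLogP) (hCut : StmCut) (hBt : StmBtP) (hYi : StmYiP)
    (hFin : StmFin) (hMo : StmMo) (hReg : StmReg) (hAlg : StmAlg) : StmMainP := by
  intro T E c R H T₀ c₁ u p B α C hT hR hH hA hT₀ hBc hBi hα hC hc₁ hc₁2 hcond
  obtain ⟨r, hr⟩ : ∃ r : ℝ, r = min R 1 / 2 := ⟨_, rfl⟩
  have hr0 : 0 < r := by rw [hr]; positivity
  have hrR : r < R := by rw [hr]; have := min_le_left R 1; linarith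
  have hr1 : r < 1 := by rw [hr]; have := min_le_right R 1; linarith
  obtain ⟨h₀, hh₀⟩ : ∃ h₀ : ℝ, h₀ = min H 1 / 2 := ⟨_, rfl⟩
  have hh₀0 : 0 < h₀ := by rw [hh₀]; positivity
  have hh₀H : h₀ < H := by rw [hh₀]; have := min_le_left H 1; linarith
  have hh₀1 : h₀ < 1 := by rw [hh₀]; have := min_le_right H 1; linarith
  obtain ⟨h, h1, hh1, hh1h, hhh₀, hG⟩ := hGd T E c R H u p hT hR hH hA r h₀ hr0 hrR hh₀0 hh₀H
  have hh0 : 0 < h := hh1.trans hh1h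
  have hhH : h < H := hhh₀.trans hh₀H
  obtain ⟨KA, TA, hKA, hTA0, hTAT, hbA⟩ := hG r (r / 2) le_rfl (by positivity) (by linarith)
  obtain ⟨T₁, hT₁⟩ : ∃ T₁ : ℝ, T₁ = max TA T₀ := ⟨_, rfl⟩
  have hT₁A : TA ≤ T₁ := by rw [hT₁]; exact le_max_left _ _
  have hT₁0 : T₀ ≤ T₁ := by rw [hT₁]; exact le_max_right _ _
  have hT₁T : T₁ < T := by rw [hT₁]; exact max_lt hTAT hT₀
  have hT₁p : 0 < T₁ := hTA0.trans_le hT₁A
  obtain ⟨α', hα'⟩ : ∃ α' : ℝ, α' = min ((α + 3 / 2) / 2) 2 := ⟨_, rfl⟩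
  have ha1 : 3 / 2 < α' := by rw [hα']; exact lt_min (by linarith) (by norm_num)
  have ha2 : α' < α := by rw [hα']; exact (min_le_left _ _).trans_lt (by linarith)
  have ha3 : α' ≤ 2 := by rw [hα']; exact min_le_right _ _
  obtain ⟨θ, hθ⟩ : ∃ θ : ℝ, θ = (1 + 2 * c₁) / 2 := ⟨_, rfl⟩
  have hθ0 : 0 < θ := by rw [hθ]; linarith
  have hθ1 : θ < 1 := by rw [hθ]; linarith
  have hθc : 2 * c₁ < θ := by rw [hθ]; linarith
  obtain ⟨C', C₀, hC', hC₀, hcirc⟩ := hLog T E c R H r h T₁ KA c₁ θ u p B α α' C hA hr0 hrR hr1 hh0 hhH hT₁p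
    hT₁T (by
      intro t ht x hx hb
      refine (hbA t ⟨hT₁A.trans ht.1, ht.2⟩ x ⟨hx, ?_⟩).2.2.1
      rcases hb with hb | hb
      · left
        rw [hb]
        exact pow_le_pow_left₀ (by positivity) (by linarith) 2
      · right
        rw [hb]
        exact hh1h.le) hBc hBi (by linarith) ha2 hC hc₁ hθc (by
      intro t ht x hx hs hsT
      refine hcond t ⟨hT₁p.trans ht.1, ht.2⟩ (hT₁0.trans_lt ht.1) x ⟨hx.1.trans ?_,
        hx.2.trans hhH⟩ hs hsT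
      exact pow_lt_pow_left₀ hrR hr0.le (by norm_num))
  -- the smaller cylinder
  obtain ⟨r', hr'⟩ : ∃ r' : ℝ, r' = min r (Real.exp (-1)) := ⟨_, rfl⟩
  have hr'0 : 0 < r' := by rw [hr']; exact lt_min hr0 (Real.exp_pos _)
  have hr'r : r' ≤ r := by rw [hr']; exact min_le_left _ _
  have hr'e : r' ^ 2 ≤ Real.exp (-2) := by
    have h2 : r' ≤ Real.exp (-1) := by rw [hr']; exact min_le_right _ _
    calc r' ^ 2 ≤ Real.exp (-1) ^ 2 := pow_le_pow_left₀ hr'0.le h2 2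
      _ = Real.exp (-2) := by rw [← Real.exp_nat_mul]; norm_num
  obtain ⟨KB, TB, hKB, hTB0, hTBT, hbB⟩ := hG r' (r' / 2) hr'r (by positivity) (by linarith)
  obtain ⟨KC, φ, hKC, hφ⟩ := hCut c r' h (r' / 2) h1 (by positivity) (by linarith) hh1 hh1h
  obtain ⟨K, hK⟩ : ∃ K : ℝ, K = max KB KC := ⟨_, rfl⟩
  have hKBK : KB ≤ K := by rw [hK]; exact le_max_left _ _
  have hKCK : KC ≤ K := by rw [hK]; exact le_max_right _ _
  have hK0 : 0 ≤ K := hKB.trans hKBK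
  obtain ⟨T₂, hT₂⟩ : ∃ T₂ : ℝ, T₂ = max T₁ TB := ⟨_, rfl⟩
  have hT₂1 : T₁ ≤ T₂ := by rw [hT₂]; exact le_max_left _ _
  have hT₂B : TB ≤ T₂ := by rw [hT₂]; exact le_max_right _ _
  have hT₂T : T₂ < T := by rw [hT₂]; exact max_lt hT₁T hTBT
  have hT₂0 : 0 < T₂ := hT₁p.trans_le hT₂1
  have hφ' := cut_mono hKCK hφ
  have hbK : ∀ t ∈ Ico T₂ T, ∀ x ∈ Out c r' h (r' / 2) h1, BdA K (u t) x := fun t ht x hx =>
    bdA_mono hKBK (hbB t ⟨hT₂B.trans ht.1, ht.2⟩ x hx)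
  have hcK : ∀ t ∈ Ico T₂ T, ∀ x ∈ Co c r' h, |circ (u t) x| ≤ C₀ ∧ (sg x ≠ 0 →
      sg x ≤ (T - t) ^ θ → |circ (u t) x| ≤ C' * |Real.log (sg x)| ^ (-α')) := fun t ht x hx => by
    have h5 := hcirc t ⟨hT₂1.trans ht.1, ht.2⟩ x ⟨hx.1.le.trans (pow_le_pow_left₀ hr'0.le hr'r 2), hx.2.le⟩
    exact ⟨h5.1, fun hs => h5.2 (lt_of_le_of_ne (sg_nonneg x) (Ne.symm hs))⟩
  obtain ⟨K', hK', hWK⟩ := hBt T E c R H K r' h (r' / 2) h1 T₂ C' C₀ α' θ u p φ hA hK0 (by positivity)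
    (by linarith) (by linarith) hr'e hh1 hh1h hhH (by linarith) hT₂0 hT₂T hC' hC₀ ha1 ha3 hθ0 hθ1 hφ' hbK hcK
  obtain ⟨C₂, hC₂, hY⟩ := hYi T E c R H K r' h (r' / 2) h1 T₂ C' C₀ α' θ K' u p φ hA hK0
    (by positivity) (by linarith) (by linarith) hr'e hh1 hh1h hhH (by linarith) hT₂0 hT₂T hC' hC₀ ha1
    ha3 hθ0 hθ1 hφ' hbK hcK hWK
  have hen : ∀ t ∈ Ico T₂ T, (∀ x ∈ Cy c (r' / 2 / 2) (h1 / 2), |WW (u t) x| ≤ K' + 3 * C₂) ∧
      ∫ x in Cy c (r' / 2 / 2) (h1 / 2), (UU (u t) x ^ 2 + gr2 (UU (u t)) x + OO (u t) x ^ 2)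
        ≤ K' + 3 * C₂ := by
    intro t ht
    have htI : t ∈ Ioo 0 T := ⟨hT₂0.trans_le ht.1, ht.2⟩
    have hsm := slice hA.smooth_u htI
    obtain ⟨⟨hU, -, -, hO⟩, -⟩ := hAlg (u t) hsm (hA.axi t htI)
    refine ⟨fun x hx => ?_, ?_⟩
    · have hx' : x ∈ Co c r' h := by
        refine ⟨hx.1.trans_lt ?_, hx.2.trans_lt (by linarith)⟩
        exact pow_lt_pow_left₀ (by linarith) (by positivity) (by norm_num)
      have := hWK t ht x hx'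
      linarith
    · have h2 := inner (by positivity) hh1 hφ' hU hO
      obtain ⟨y1, y2, y3⟩ := hY t ht
      linarith
  have hKK : 0 ≤ K' + 3 * C₂ := by positivity
  obtain ⟨K₀, hK₀, hmo⟩ := hMo T E c R H (r' / 2 / 2) (h1 / 2) T₂ (K' + 3 * C₂) u p hA
    (by positivity) (by linarith) (by positivity) (by linarith) hT₂0 hT₂T hKK hen
  obtain ⟨ε, hε, hreg⟩ := hReg K₀ hK₀
  have hqt := hFin T E c R H (r' / 2 / 2) (h1 / 2) T₂ (K' + 3 * C₂) u p hA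
    (by positivity) (by linarith) (by positivity) (by linarith) hT₂0 hT₂T hKK hen ε hε
  refine hreg T E (Co c R H) u p hT hA.toLSl ![0, 0, c] ?_ hmo hqt
  refine ⟨?_, ?_⟩
  · have : sg (![0, 0, c] : V) = 0 := by
      unfold sg
      simp
    rw [this]
    positivity
  · show |c - c| < H
    rw [sub_self, abs_zero]
    exact hH

end Pool.Agent.Q65.AXI
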